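import Pool.Agent.Lib_MP_6d359a_lc.Defs

namespace Pool.Agent.Lib_MP_6d359a_lc

open Set Cardinal

theorem mk_skel_le (𝓕 : Fam) (κ : Cardinal.{0}) (hκ : ℵ₀ ≤ κ) (hΓ : #𝓕.Γ ≤ κ) :
    #(Skel 𝓕 ℕ) ≤ κ := by
  have h1 : #(Σ γ : 𝓕.Γ, Fin (𝓕.ar γ) → ℕ) ≤ κ := by
    rw [Cardinal.mk_sigma]
    refine (Cardinal.sum_le_sum _ (fun _ => ℵ₀) (fun γ => Cardinal.mk_le_aleph0)).trans ?_
    rw [Cardinal.sum_const, Cardinal.lift_id, Cardinal.lift_id]
    exact Cardinal.mul_le_of_le hκ hΓ hκ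
  exact (Cardinal.mk_list_le_max _).trans (max_le hκ h1)

theorem exists_mw (𝓕 : Fam) (κ : Cardinal.{0}) (hκ : ℵ₀ ≤ κ) (hΓ : #𝓕.Γ ≤ κ)
    (J : Set (Set ℕ)) : ∃ T : Set (Set ℕ), #T ≤ κ ∧ MW 𝓕 (J ∪ T) := by
  classical
  let A : Set (Set ℕ) → Skel 𝓕 ℕ → Prop := fun T' θ =>
    ∃ (α : ℕ → Set ℕ) (C : Cond ℕ), Disjoint (rows C) (J ∪ T') ∧ Bad 𝓕 θ α C
  have hex : ∀ θ : Skel 𝓕 ℕ, ∃ T' : Set (Set ℕ), #T' ≤ κ ∧
      ((∃ T'' : Set (Set ℕ), #T'' ≤ κ ∧ ¬ A T'' θ) → ¬ A T' θ) := by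
    intro θ
    by_cases h : ∃ T'' : Set (Set ℕ), #T'' ≤ κ ∧ ¬ A T'' θ
    · obtain ⟨T'', h1, h2⟩ := h
      exact ⟨T'', h1, fun _ => h2⟩
    · exact ⟨∅, by simp, fun h' => absurd h' h⟩
  choose T hT1 hT2 using hex
  have hU : #(⋃ θ, T θ : Set (Set ℕ)) ≤ κ := by
    refine (Cardinal.mk_iUnion_le_sum_mk).trans ?_
    refine (Cardinal.sum_le_sum _ (fun _ => κ) hT1).trans ?_
    rw [Cardinal.sum_const, Cardinal.lift_id, Cardinal.lift_id]
    exact Cardinal.mul_le_of_le hκ (mk_skel_le 𝓕 κ hκ hΓ) le_rfl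
  refine ⟨⋃ θ, T θ, hU, ?_⟩
  rintro θ ⟨α, C, hd, hbad⟩ r hr
  by_contra hcon
  have hcard : #((⋃ θ, T θ) ∪ r : Set (Set ℕ)) ≤ κ := by
    refine (Cardinal.mk_union_le _ _).trans ?_
    refine Cardinal.add_le_of_le hκ hU ?_
    exact (Cardinal.lt_aleph0_iff_set_finite.2 hr).le.trans hκ
  have h3 : ¬ A (T θ) θ := by
    refine hT2 θ ⟨_, hcard, ?_⟩
    rintro ⟨α', C', hd', hb'⟩
    refine hcon ⟨α', C', ?_, hb'⟩
    rwa [union_assoc]
  refine h3 ⟨α, C, ?_, hbad⟩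
  exact hd.mono_right (union_subset_union_right _ (subset_iUnion T θ))

theorem select {β X : Type} [Finite β] (rw : X → Set (Set ℕ)) (hfin : ∀ x, (rw x).Finite)
    (S : β → Set X) (J : Set (Set ℕ))
    (h : ∀ b, ∀ r : Set (Set ℕ), r.Finite → ∃ x ∈ S b, Disjoint (rw x) (J ∪ r)) :
    ∃ c : β → X, (∀ b, c b ∈ S b ∧ Disjoint (rw (c b)) J) ∧
      ∀ b b', b ≠ b' → Disjoint (rw (c b)) (rw (c b')) := by
  classical
  rcases isEmpty_or_nonempty β with hβ | ⟨⟨b₀⟩⟩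
  · exact ⟨fun b => (hβ.false b).elim, fun b => (hβ.false b).elim, fun b => (hβ.false b).elim⟩
  obtain ⟨x₀, -, -⟩ := h b₀ ∅ finite_empty
  have key : ∀ s : Finset β, ∃ c : β → X, (∀ b ∈ s, c b ∈ S b ∧ Disjoint (rw (c b)) J) ∧
      ∀ b ∈ s, ∀ b' ∈ s, b ≠ b' → Disjoint (rw (c b)) (rw (c b')) := by
    intro s
    induction s using Finset.induction_on with
    | empty => exact ⟨fun _ => x₀, by simp, by simp⟩
    | insert b s hb ih =>
      obtain ⟨c, hc1, hc2⟩ := ih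
      obtain ⟨x, hx1, hx2⟩ := h b (⋃ b' ∈ s, rw (c b'))
        (s.finite_toSet.biUnion fun b' _ => hfin (c b'))
      have hx3 : Disjoint (rw x) J := hx2.mono_right subset_union_left
      have hx4 : ∀ b' ∈ s, Disjoint (rw x) (rw (c b')) := fun b' hb' =>
        hx2.mono_right ((subset_biUnion_of_mem (u := fun b' => rw (c b'))
          (show b' ∈ (s : Set β) from hb')).trans subset_union_right)
      have hne : ∀ b' ∈ s, b' ≠ b := fun b' hb' e => hb (e ▸ hb')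
      refine ⟨Function.update c b x, ?_, ?_⟩
      · intro b' hb'
        rcases Finset.mem_insert.1 hb' with e | hb'
        · subst e; simp only [Function.update_self]; exact ⟨hx1, hx3⟩
        · rw [Function.update_of_ne (hne b' hb')]; exact hc1 b' hb'
      · intro b₁ hb₁ b₂ hb₂ hne12
        rcases Finset.mem_insert.1 hb₁ with e₁ | hb₁' <;>
          rcases Finset.mem_insert.1 hb₂ with e₂ | hb₂'
        · exact absurd (e₁.trans e₂.symm) hne12
        · subst e₁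
          rw [Function.update_self, Function.update_of_ne (hne b₂ hb₂')]
          exact hx4 b₂ hb₂'
        · subst e₂
          rw [Function.update_self, Function.update_of_ne (hne b₁ hb₁')]
          exact (hx4 b₁ hb₁').symm
        · rw [Function.update_of_ne (hne b₁ hb₁'), Function.update_of_ne (hne b₂ hb₂')]
          exact hc2 b₁ hb₁' b₂ hb₂' hne12
  have : Fintype β := Fintype.ofFinite β
  obtain ⟨c, hc1, hc2⟩ := key Finset.univ
  exact ⟨c, fun b => hc1 b (Finset.mem_univ b), fun b b' hbb' =>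
    hc2 b (Finset.mem_univ b) b' (Finset.mem_univ b') hbb'⟩

theorem blocking {X Y : Type} (rw : X → Set (Set ℕ)) (hfin : ∀ x, (rw x).Finite)
    (S : Set (Y × X)) (r : ℕ)
    (h : ¬ ∃ s : Fin (r + 1) → Y × X, (∀ l, s l ∈ S) ∧
      ∀ l l', l ≠ l' → (s l).1 ≠ (s l').1 ∧ Disjoint (rw (s l).2) (rw (s l').2)) :
    ∃ (T : Set (Set ℕ)) (B : Set Y), T.Finite ∧ B.Finite ∧
      ∀ s ∈ S, s.1 ∈ B ∨ ¬ Disjoint (rw s.2) T := by
  classical
  induction r with
  | zero =>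
    refine ⟨∅, ∅, finite_empty, finite_empty, fun s hs => ?_⟩
    exact absurd ⟨fun _ => s, fun _ => hs, fun l l' hl =>
      absurd (Fin.ext (by omega)) hl⟩ h
  | succ r ih =>
    by_cases h' : ∃ s : Fin (r + 1) → Y × X, (∀ l, s l ∈ S) ∧
      ∀ l l', l ≠ l' → (s l).1 ≠ (s l').1 ∧ Disjoint (rw (s l).2) (rw (s l').2)
    · obtain ⟨s, hs1, hs2⟩ := h'
      refine ⟨⋃ l, rw (s l).2, range fun l => (s l).1, finite_iUnion fun l => hfin _,
        finite_range _, ?_⟩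
      intro t ht
      by_contra hcon
      push Not at hcon
      obtain ⟨hB, hT⟩ := hcon
      have hB' : ∀ l, t.1 ≠ (s l).1 := fun l e => hB ⟨l, e.symm⟩
      have hT' : ∀ l, Disjoint (rw t.2) (rw (s l).2) := fun l =>
        hT.mono_right (subset_iUnion (fun l => rw (s l).2) l)
      refine h ⟨Fin.cons t s, ?_, ?_⟩
      · intro l
        refine Fin.cases ?_ ?_ l
        · simpa using ht
        · intro l; simpa using hs1 l
      · intro l l'
        refine Fin.cases ?_ (fun l => ?_) l <;> refine Fin.cases ?_ (fun l' => ?_) l'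
        · intro hl; exact absurd rfl hl
        · intro _; simpa using ⟨hB' l', hT' l'⟩
        · intro _; simpa using ⟨(hB' l).symm, (hT' l).symm⟩
        · intro hl
          have : l ≠ l' := fun e => hl (by rw [e])
          simpa using hs2 l l' this
    · exact ih h'

end Pool.Agent.Lib_MP_6d359a_lc
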