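import Pool.Agent.Lib_MP_6d359a_lc.Defs

namespace Pool.Agent.Lib_MP_6d359a_lc

open Set Cardinal

theorem mem_res {k : ℕ} {R : Set ℕ} {i : Fin k} : i ∈ res k R ↔ (i : ℕ) ∈ R := by
  classical
  simp [res]

theorem res_ne {R R' : Set ℕ} (h : R ≠ R') : ∃ k₀, ∀ k ≥ k₀, res k R ≠ res k R' := by
  have h1 : ∃ n, ¬ (n ∈ R ↔ n ∈ R') := by
    by_contra hc
    push Not at hc
    exact h (Set.ext hc)
  obtain ⟨n, hn⟩ := h1
  refine ⟨n + 1, fun k hk he => hn ?_⟩
  have h2 := @mem_res k R ⟨n, by omega⟩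
  have h3 := @mem_res k R' ⟨n, by omega⟩
  rw [he] at h2
  exact h2.symm.trans h3

theorem res_injOn (s : Set (Set ℕ)) (hs : s.Finite) :
    ∃ k₀, ∀ k ≥ k₀, Set.InjOn (res k) s := by
  classical
  have h : ∀ R R' : Set ℕ, ∃ k₀, ∀ k ≥ k₀, R ≠ R' → res k R ≠ res k R' := by
    intro R R'
    by_cases hR : R = R'
    · exact ⟨0, fun k _ hc => absurd hR hc⟩
    · obtain ⟨k₀, hk₀⟩ := res_ne hR
      exact ⟨k₀, fun k hk _ => hk₀ k hk⟩
  choose K hK using h
  refine ⟨(hs.toFinset ×ˢ hs.toFinset).sup (fun q => K q.1 q.2), fun k hk R hR R' hR' he => ?_⟩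
  by_contra hc
  refine hK R R' k ?_ hc he
  refine le_trans ?_ hk
  exact Finset.le_sup (f := fun q : Set ℕ × Set ℕ => K q.1 q.2)
    (Finset.mem_product.2 ⟨hs.mem_toFinset.2 hR, hs.mem_toFinset.2 hR'⟩ :
      ((R, R') : Set ℕ × Set ℕ) ∈ hs.toFinset ×ˢ hs.toFinset)

theorem rows_finite {ι : Type} (C : Cond ι) : (rows C).Finite := by
  classical
  refine (C.image (fun t => t.2.1)).finite_toSet.subset ?_
  rintro R ⟨t, ht, rfl⟩
  exact Finset.mem_coe.2 (Finset.mem_image_of_mem _ ht)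

theorem ind_empty {ι : Type} (J : Set (Set ℕ)) : IND (∅ : Set (Rule ι)) J := by
  classical
  intro g _ hg C _ k₀
  obtain ⟨k₁, hk₁⟩ := res_injOn (rows C) (rows_finite C)
  refine ⟨max k₀ k₁, le_max_left _ _, fun x S =>
    (C.filter (fun t => t.1 = x ∧ res (max k₀ k₁) t.2.1 = S)).image
      (fun t => res (max k₀ k₁) t.2.2), fun r hr => absurd (hg hr) (Set.notMem_empty r), ?_⟩
  intro t ht
  refine ⟨?_, ?_⟩
  · refine le_trans Finset.card_image_le ?_
    refine Finset.card_le_card ?_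
    intro s hs
    rw [Finset.mem_filter] at hs ⊢
    refine ⟨hs.1, hs.2.1, ?_⟩
    exact hk₁ _ (le_max_right _ _) ⟨s, hs.1, rfl⟩ ⟨t, ht, rfl⟩ hs.2.2
  · exact Finset.mem_image.2 ⟨t, Finset.mem_filter.2 ⟨ht, rfl, rfl⟩, rfl⟩

theorem IND.mono {ι : Type} {F F' : Set (Rule ι)} {J J' : Set (Set ℕ)} (h : IND F J)
    (hF : F' ⊆ F) (hJ : J ⊆ J') : IND F' J' := by
  intro g hg hgF C hC k₀
  exact h g hg (hgF.trans hF) C (hC.mono_right hJ) k₀

theorem csat_mono {ι : Type} {C C' : Cond ι} (h : C ⊆ C')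
    (hr : ∀ s ∈ C', s.2.1 ∈ rows C → s ∈ C) {k : ℕ} {p : ι → Blk k} (hp : CSat C' k p) :
    CSat C k p := by
  classical
  intro t ht
  have h1 := hp t (h ht)
  have h2 : colcard C t.1 t.2.1 = colcard C' t.1 t.2.1 := by
    unfold colcard
    congr 1
    ext s
    simp only [Finset.mem_filter]
    constructor
    · rintro ⟨hs, hs2⟩
      exact ⟨h hs, hs2⟩
    · rintro ⟨hs, hs2⟩
      exact ⟨hr s hs ⟨t, ht, hs2.2.symm⟩, hs2⟩
  rw [h2]
  exact h1

open Classical in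
/-- transport of a condition -/
noncomputable def mapC {ι ι' : Type} (h : ι → ι') (C : Cond ι) : Cond ι' :=
  C.image (fun t => (h t.1, t.2))

theorem mem_mapC {ι ι' : Type} {h : ι → ι'} {C : Cond ι} {s : ι' × Set ℕ × Set ℕ} :
    s ∈ mapC h C ↔ ∃ t ∈ C, (h t.1, t.2) = s := by
  classical
  unfold mapC
  rw [Finset.mem_image]

theorem rows_mapC {ι ι' : Type} (h : ι → ι') (C : Cond ι) : rows (mapC h C) = rows C := by
  ext R
  constructor
  · rintro ⟨s, hs, rfl⟩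
    obtain ⟨t, ht, rfl⟩ := mem_mapC.1 hs
    exact ⟨t, ht, rfl⟩
  · rintro ⟨t, ht, rfl⟩
    exact ⟨_, mem_mapC.2 ⟨t, ht, rfl⟩, rfl⟩

theorem colcard_mapC {ι ι' : Type} {h : ι → ι'} (hh : Function.Injective h) (C : Cond ι)
    (x : ι) (R : Set ℕ) : colcard (mapC h C) (h x) R = colcard C x R := by
  classical
  unfold colcard mapC
  rw [Finset.filter_image]
  rw [Finset.card_image_of_injective]
  · congr 1
    ext s
    simp only [Finset.mem_filter]
    constructor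
    · rintro ⟨hs, h1, h2⟩
      exact ⟨hs, hh h1, h2⟩
    · rintro ⟨hs, h1, h2⟩
      exact ⟨hs, by rw [h1], h2⟩
  · rintro ⟨a, b⟩ ⟨a', b'⟩ he
    simp only [Prod.mk.injEq] at he
    exact Prod.ext (hh he.1) he.2

theorem csat_mapC {ι ι' : Type} {h : ι → ι'} (hh : Function.Injective h) (C : Cond ι) {k : ℕ}
    {p : ι' → Blk k} : CSat (mapC h C) k p ↔ CSat C k (fun i => p (h i)) := by
  constructor
  · intro hp t ht
    have h1 := hp (h t.1, t.2) (mem_mapC.2 ⟨t, ht, rfl⟩)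
    simp only [colcard_mapC hh] at h1
    exact h1
  · intro hp s hs
    obtain ⟨t, ht, rfl⟩ := mem_mapC.1 hs
    simp only [colcard_mapC hh]
    exact hp t ht

theorem extend_inj {K : Type} [Infinite K] (P : Finset ℕ) (τ : ℕ → K)
    (h : Set.InjOn τ (P : Set ℕ)) :
    ∃ τ' : ℕ → K, Function.Injective τ' ∧ ∀ m ∈ P, τ' m = τ m := by
  classical
  have hinf : ((P.image τ : Finset K) : Set K)ᶜ.Infinite :=
    (P.image τ).finite_toSet.infinite_compl
  let e := hinf.natEmbedding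
  have he : ∀ m, ((e m : K)) ∉ P.image τ := fun m hm => (e m).2 (Finset.mem_coe.2 hm)
  refine ⟨fun m => if m ∈ P then τ m else (e m : K), ?_, fun m hm => by simp [hm]⟩
  intro m m' hmm
  simp only at hmm
  by_cases hm : m ∈ P <;> by_cases hm' : m' ∈ P
  · rw [if_pos hm, if_pos hm'] at hmm
    exact h (Finset.mem_coe.2 hm) (Finset.mem_coe.2 hm') hmm
  · rw [if_pos hm, if_neg hm'] at hmm
    exact absurd (hmm ▸ Finset.mem_image_of_mem τ hm) (he m')
  · rw [if_neg hm, if_pos hm'] at hmm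
    exact absurd (hmm ▸ Finset.mem_image_of_mem τ hm') (he m)
  · rw [if_neg hm, if_neg hm'] at hmm
    exact e.injective (Subtype.ext hmm)

end Pool.Agent.Lib_MP_6d359a_lc
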