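import Pool.Agent.Lib_MP_6d359a_lc.Defs

namespace Pool.Agent.Lib_MP_6d359a_lc

open Set Cardinal

theorem small_mono {ι : Type} {κ κ' : Cardinal.{0}} (h : κ ≤ κ') {F : Set (Rule ι)}
    (hF : Small κ F) : Small κ' F := by
  obtain ⟨𝓕, D, h1, h2⟩ := hF
  exact ⟨𝓕, D, h1.trans h, h2⟩

theorem small_union {ι I : Type} (κ : Cardinal.{0}) (hκ : ℵ₀ ≤ κ) (hI : #I ≤ κ)
    (F : I → Set (Rule ι)) (h : ∀ i, Small κ (F i)) : Small κ (⋃ i, F i) := by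
  choose 𝓕 D hc hF using h
  refine ⟨⟨Σ i, (𝓕 i).Γ, fun s => (𝓕 s.1).ar s.2, fun s => (𝓕 s.1).G s.2⟩,
    fun s => D s.1 s.2, ?_, ?_⟩
  · show #(Σ i, (𝓕 i).Γ) ≤ κ
    rw [Cardinal.mk_sigma]
    refine (Cardinal.sum_le_sum _ (fun _ => κ) hc).trans ?_
    rw [Cardinal.sum_const']
    exact (mul_le_mul' hI le_rfl).trans (le_of_eq (Cardinal.mul_eq_self hκ))
  · ext r
    rw [Set.mem_iUnion]
    constructor
    · rintro ⟨i, hi⟩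
      rw [hF i] at hi
      obtain ⟨γ, α, x, hx, rfl⟩ := hi
      exact ⟨⟨i, γ⟩, α, x, hx, rfl⟩
    · rintro ⟨⟨i, γ⟩, α, x, hx, rfl⟩
      refine ⟨i, ?_⟩
      rw [hF i]
      exact ⟨γ, α, x, hx, rfl⟩

theorem small_add {ι : Type} {κ : Cardinal.{0}} (hκ : ℵ₀ ≤ κ) {F : Set (Rule ι)}
    (hF : Small κ F) (n : ℕ) (G : Set ℕ → Set (Om n)) (D : Set (Fin n → ι)) :
    Small κ (F ∪ {r | ∃ α : Set ℕ, ∃ x ∈ D, r = ⟨n, x, G α⟩}) := by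
  have h1 : Small κ {r : Rule ι | ∃ α : Set ℕ, ∃ x ∈ D, r = ⟨n, x, G α⟩} := by
    refine ⟨⟨Unit, fun _ => n, fun _ => G⟩, fun _ => D, ?_, ?_⟩
    · show #Unit ≤ κ
      refine le_trans ?_ hκ
      rw [Cardinal.mk_unit]
      exact Cardinal.one_le_aleph0
    · ext r
      constructor
      · rintro ⟨α, x, hx, rfl⟩
        exact ⟨(), α, x, hx, rfl⟩
      · rintro ⟨_, α, x, hx, rfl⟩
        exact ⟨α, x, hx, rfl⟩
  have h2 := small_union (I := Bool) κ hκ ((Cardinal.mk_bool.trans_le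
    (Cardinal.natCast_lt_aleph0).le).trans hκ)
    (fun b => cond b F {r : Rule ι | ∃ α : Set ℕ, ∃ x ∈ D, r = ⟨n, x, G α⟩})
    (fun b => by cases b <;> assumption)
  have h3 : (⋃ b, cond b F {r : Rule ι | ∃ α : Set ℕ, ∃ x ∈ D, r = ⟨n, x, G α⟩}) =
      F ∪ {r | ∃ α : Set ℕ, ∃ x ∈ D, r = ⟨n, x, G α⟩} := by
    ext r
    simp only [Set.mem_iUnion, Set.mem_union]
    constructor
    · rintro ⟨b, hb⟩
      cases b
      · exact Or.inr hb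
      · exact Or.inl hb
    · rintro (hb | hb)
      · exact ⟨true, hb⟩
      · exact ⟨false, hb⟩
  rw [h3] at h2
  exact h2

theorem exists_inv_dom {ι : Type} {E : ι → ι → Prop} {κ : Cardinal.{0}} {F : Set (Rule ι)}
    (hI : Inv E F) (hS : Small κ F) : ∃ (𝓕 : Fam) (D : ∀ γ : 𝓕.Γ, Set (Fin (𝓕.ar γ) → ι)),
      #𝓕.Γ ≤ κ ∧ F = rulesOf 𝓕 D ∧ ∀ γ x y, (∀ a, E (x a) (y a)) → x ∈ D γ → y ∈ D γ := by
  obtain ⟨𝓕, D, h1, h2⟩ := hS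
  refine ⟨𝓕, fun γ => {x | ∀ α, (⟨𝓕.ar γ, x, 𝓕.G γ α⟩ : Rule ι) ∈ F}, h1, ?_, ?_⟩
  · ext r
    constructor
    · intro hr
      have hr' := hr
      rw [h2] at hr'
      obtain ⟨γ, α, x, hx, rfl⟩ := hr'
      refine ⟨γ, α, x, ?_, rfl⟩
      intro β
      rw [h2]
      exact ⟨γ, β, x, hx, rfl⟩
    · rintro ⟨γ, α, x, hx, rfl⟩
      exact hx α
  · intro γ x y hxy hx α
    exact hI _ x y _ hxy (hx α)

end Pool.Agent.Lib_MP_6d359a_lc
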