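import Pool.Agent.Lib_MP_6d359a_lc.Base
import Pool.Agent.Lib_MP_6d359a_lc.SmallU

namespace Pool.Agent.Lib_MP_6d359a_lc

open Set Cardinal

/-- A set of fewer than continuum many rows misses a row. -/
theorem exists_row_notMem {κ : Cardinal.{0}} (hκc : κ < continuum) (J : Set (Set ℕ))
    (hJ : #J ≤ κ) : ∃ R : Set ℕ, R ∉ J := by
  by_contra hcon
  push Not at hcon
  have h1 : J = Set.univ := Set.eq_univ_of_forall hcon
  have h2 : #J = continuum := by
    rw [h1, Cardinal.mk_univ, Cardinal.mk_set, Cardinal.mk_nat, Cardinal.two_power_aleph0]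
  exact absurd (h2 ▸ hJ) (not_le.2 hκc)

theorem ok_step {K : Type} {E : K → K → Prop} (hE : Equivalence E) (κ : Cardinal.{0})
    (hκ : ℵ₀ ≤ κ) (hκc : κ < continuum)
    (F : Set (Rule K)) (J : Set (Set ℕ)) (hI : IND F J) (hInv : Inv E F) (hS : Small κ F)
    (hJ : #J ≤ κ) (n : ℕ) (U : ℕ → Set (Om (n + 1))) (hU : Antitone U) (hU0 : U 0 = Set.univ)
    (hUe : ∀ q, ∃ j, q ∉ U j) :
    ∃ (F' : Set (Rule K)) (J' : Set (Set ℕ)), F ⊆ F' ∧ J ⊆ J' ∧ IND F' J' ∧ Inv E F' ∧
      Small κ F' ∧ #J' ≤ κ ∧ ∃ R : Set ℕ, ∀ x : Fin (n + 1) → K,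
        (∀ j, (⟨n + 1, x, U j⟩ : Rule K) ∈ F) →
          ∀ α : Set ℕ, (⟨n + 1, x, VV U R α⟩ : Rule K) ∈ F' := by
  classical
  obtain ⟨R, hR⟩ := exists_row_notMem hκc J hJ
  set D : Set (Fin (n + 1) → K) := {x | ∀ j, (⟨n + 1, x, U j⟩ : Rule K) ∈ F} with hD
  set N : Set (Rule K) := {r | ∃ α : Set ℕ, ∃ x ∈ D, r = ⟨n + 1, x, VV U R α⟩} with hN
  refine ⟨F ∪ N, insert R J, subset_union_left, subset_insert _ _, ?_, ?_, ?_, ?_, R, ?_⟩
  · -- independence
    intro g hg hgF C hC k₀
    rcases isEmpty_or_nonempty K with hK | hK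
    · refine hI g hg (fun r hr => ?_) C (hC.mono_right (subset_insert _ _)) k₀
      rcases hgF hr with h | ⟨_, x, _, _⟩
      · exact h
      · exact hK.elim (x 0)
    set g2 : Finset (Rule K) := hg.toFinset.filter (fun r => r ∉ F) with hg2
    have hmem : ∀ r ∈ g2, ∃ α : Set ℕ, ∃ x ∈ D, r = ⟨n + 1, x, VV U R α⟩ := by
      intro r hr
      rw [hg2, Finset.mem_filter, Set.Finite.mem_toFinset] at hr
      rcases hgF hr.1 with h | h
      · exact absurd h hr.2
      · exact h
    choose! al xx hxD hxr using hmem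
    have hRC : R ∉ rows C := fun h => Set.disjoint_left.1 hC h (Set.mem_insert _ _)
    set I : Cond K := g2.image (fun r => (xx r 0, R, al r)) with hIdef
    obtain ⟨k, hk, p, hp1, hp2⟩ := hI
      ({r | r ∈ g ∧ r ∈ F} ∪ (fun r => (⟨n + 1, xx r, U g2.card⟩ : Rule K)) '' (g2 : Set (Rule K)))
      ((hg.subset (fun r hr => hr.1)).union (g2.finite_toSet.image _))
      (by
        rintro r (hr | ⟨s, hs, rfl⟩)
        · exact hr.2
        · exact hxD s hs g2.card)
      (C ∪ I)
      (by
        rw [Set.disjoint_left]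
        rintro S ⟨t, ht, rfl⟩ hS
        rcases Finset.mem_union.1 ht with h | h
        · exact Set.disjoint_left.1 hC ⟨t, h, rfl⟩ (Set.mem_insert_of_mem _ hS)
        · obtain ⟨s, _, rfl⟩ := Finset.mem_image.1 h
          exact hR hS)
      k₀
    refine ⟨k, hk, p, ?_, ?_⟩
    · intro r hr
      by_cases hrF : r ∈ F
      · exact hp1 r (Or.inl ⟨hr, hrF⟩)
      · have hr2 : r ∈ g2 := by
          rw [hg2, Finset.mem_filter, Set.Finite.mem_toFinset]
          exact ⟨hr, hrF⟩
        have h1 : (⟨k, fun a => p (xx r a)⟩ : Om (n + 1)) ∈ U g2.card :=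
          hp1 _ (Or.inr ⟨r, hr2, rfl⟩)
        have h2 := hp2 (xx r 0, R, al r)
          (Finset.mem_union_right _ (Finset.mem_image.2 ⟨r, hr2, rfl⟩))
        have h3 : colcard (C ∪ I) (xx r 0) R ≤ g2.card := by
          unfold colcard
          refine le_trans (Finset.card_le_card (t := I) ?_) Finset.card_image_le
          intro s hs
          rw [Finset.mem_filter] at hs
          rcases Finset.mem_union.1 hs.1 with h | h
          · exact absurd ⟨s, h, hs.2.2⟩ hRC
          · exact h
        rw [hxr r hr2]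
        change (⟨k, fun a => p (xx r a)⟩ : Om (n + 1)) ∈ VV U R (al r)
        have hex := hUe ⟨k, fun a => p (xx r a)⟩
        have hj0 : Nat.find hex ≠ 0 := by
          intro h0
          have := Nat.find_spec hex
          rw [h0, hU0] at this
          exact this (Set.mem_univ _)
        obtain ⟨j, hj⟩ := Nat.exists_eq_succ_of_ne_zero hj0
        have hj1 : (⟨k, fun a => p (xx r a)⟩ : Om (n + 1)) ∈ U j := by
          by_contra hcon
          exact Nat.find_min hex (by omega) hcon
        have hj2 : (⟨k, fun a => p (xx r a)⟩ : Om (n + 1)) ∉ U (j + 1) := by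
          have := Nat.find_spec hex
          rwa [hj] at this
        have hj3 : g2.card ≤ j := by
          by_contra hcon
          exact hj2 (hU (by omega : j + 1 ≤ g2.card) h1)
        exact ⟨j, hj1, hj2, h2.1.trans (h3.trans hj3), h2.2⟩
    · refine csat_mono Finset.subset_union_left ?_ hp2
      intro s hs hsr
      rcases Finset.mem_union.1 hs with h | h
      · exact h
      · obtain ⟨r, _, rfl⟩ := Finset.mem_image.1 h
        exact absurd hsr hRC
  · -- invariance
    intro m x y G hxy hm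
    rcases hm with h | h
    · exact Or.inl (hInv m x y G hxy h)
    · obtain ⟨α, x', hx', he⟩ := h
      cases he
      exact Or.inr ⟨α, y, fun j => hInv _ _ y _ hxy (hx' j), rfl⟩
  · exact small_add hκ hS (n + 1) (fun α => VV U R α) D
  · refine (Cardinal.mk_insert_le).trans ?_
    exact (add_le_add hJ (one_lt_aleph0.le.trans hκ)).trans (Cardinal.add_eq_self hκ).le
  · intro x hx α
    exact Or.inr ⟨α, x, hx, rfl⟩

end Pool.Agent.Lib_MP_6d359a_lc
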