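import Pool.Agent.Lib_MP_6d359a_lc.Base

namespace Pool.Agent.Lib_MP_6d359a_lc

open Set Cardinal

/-- An injection of the naturals whose range contains a given finite set. -/
theorem exists_inj_range {K : Type} [Infinite K] (N : Finset K) :
    ∃ h : ℕ → K, Function.Injective h ∧ ∀ y ∈ N, ∃ i, h i = y := by
  classical
  obtain ⟨y₀⟩ : Nonempty K := inferInstance
  let e := N.equivFin
  let τ : ℕ → K := fun m => if hm : m < N.card then (e.symm ⟨m, hm⟩ : K) else y₀
  have hτ : Set.InjOn τ ((Finset.range N.card : Finset ℕ) : Set ℕ) := by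
    intro m hm m' hm' he
    have h1 : m < N.card := Finset.mem_range.1 (Finset.mem_coe.1 hm)
    have h2 : m' < N.card := Finset.mem_range.1 (Finset.mem_coe.1 hm')
    simp only [τ, dif_pos h1, dif_pos h2] at he
    have h3 := e.symm.injective (Subtype.ext he)
    exact congrArg Fin.val h3
  obtain ⟨τ', h1, h2⟩ := extend_inj (Finset.range N.card) τ hτ
  refine ⟨τ', h1, fun y hy => ⟨(e ⟨y, hy⟩ : ℕ), ?_⟩⟩
  have h3 : ((e ⟨y, hy⟩ : Fin N.card) : ℕ) < N.card := (e ⟨y, hy⟩).2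
  rw [h2 _ (Finset.mem_range.2 h3)]
  simp only [τ, dif_pos h3, Fin.eta, Equiv.symm_apply_apply]

theorem exists_bad {K : Type} [Infinite K] (𝓕 : Fam) (D : ∀ γ : 𝓕.Γ, Set (Fin (𝓕.ar γ) → K))
    (J : Set (Set ℕ)) (h : ¬ IND (rulesOf 𝓕 D) J) :
    ∃ (h : ℕ → K) (θ : Skel 𝓕 ℕ) (α : ℕ → Set ℕ) (C : Cond ℕ), Function.Injective h ∧
      (∀ l ∈ θ, (fun a => h (l.2 a)) ∈ D l.1) ∧ Disjoint (rows C) J ∧ Bad 𝓕 θ α C := by
  classical
  unfold IND at h
  push Not at h
  obtain ⟨g, hgf, hgF, C, hC, k₀, hk₀⟩ := h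
  have : Fintype g := hgf.fintype
  have hdat : ∀ r : g, ∃ (γ : 𝓕.Γ) (α : Set ℕ), ∃ x ∈ D γ, r.1 = ⟨𝓕.ar γ, x, 𝓕.G γ α⟩ :=
    fun r => hgF r.2
  choose γ α x hx hr using hdat
  -- the finite set of indices
  let N : Finset K := (Finset.univ.biUnion (fun r : g => Finset.univ.image (x r))) ∪
    C.image (fun t => t.1)
  obtain ⟨h, hinj, hran⟩ := exists_inj_range N
  have hx' : ∀ (r : g) (a : Fin (𝓕.ar (γ r))), ∃ i, h i = x r a := by
    intro r a
    apply hran
    apply Finset.mem_union_left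
    exact Finset.mem_biUnion.2 ⟨r, Finset.mem_univ _, Finset.mem_image_of_mem _ (Finset.mem_univ a)⟩
  choose x' hx'' using hx'
  have hxe : ∀ r : g, (fun a => h (x' r a)) = x r := fun r => funext (fun a => hx'' r a)
  let L : List g := (Finset.univ : Finset g).toList
  let θ : Skel 𝓕 ℕ := L.map (fun r => (⟨γ r, x' r⟩ : Σ γ : 𝓕.Γ, Fin (𝓕.ar γ) → ℕ))
  let β : ℕ → Set ℕ := fun l => if hl : l < L.length then α (L[l]) else ∅
  let C' : Cond ℕ := mapC (Function.invFun h) C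
  have hCC : mapC h C' = C := by
    ext s
    constructor
    · intro hs
      obtain ⟨t, ht, rfl⟩ := mem_mapC.1 hs
      obtain ⟨u, hu, rfl⟩ := mem_mapC.1 ht
      have h1 : ∃ i, h i = u.1 := hran _ (Finset.mem_union_right _ (Finset.mem_image_of_mem _ hu))
      have h2 : h (Function.invFun h u.1) = u.1 := Function.invFun_eq h1
      simp only [h2]
      exact hu
    · intro hs
      have h1 : ∃ i, h i = s.1 := hran _ (Finset.mem_union_right _ (Finset.mem_image_of_mem _ hs))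
      have h2 : h (Function.invFun h s.1) = s.1 := Function.invFun_eq h1
      refine mem_mapC.2 ⟨(Function.invFun h s.1, s.2), mem_mapC.2 ⟨s, hs, rfl⟩, ?_⟩
      simp only [h2]
  refine ⟨h, θ, β, C', hinj, ?_, ?_, k₀, ?_⟩
  · intro l hl
    obtain ⟨r, _, rfl⟩ := List.mem_map.1 hl
    show (fun a => h (x' r a)) ∈ D (γ r)
    rw [hxe r]
    exact hx r
  · rw [rows_mapC]
    exact hC
  · rintro k hk p ⟨hs, hc⟩
    have hP : ∀ i, p (Function.invFun h (h i)) = p i := fun i => by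
      rw [Function.leftInverse_invFun hinj i]
    refine hk₀ k hk (fun y => p (Function.invFun h y)) ?_ ?_
    · intro r hrg
      have hmem : (⟨r, hrg⟩ : g) ∈ L := Finset.mem_toList.2 (Finset.mem_univ _)
      obtain ⟨l, hl, hlr⟩ := List.mem_iff_getElem.1 hmem
      have hl' : l < θ.length := by
        show l < (L.map _).length
        rw [List.length_map]
        exact hl
      have h1 := hs l hl'
      have h2 : θ[l] = (⟨γ ⟨r, hrg⟩, x' ⟨r, hrg⟩⟩ : Σ γ : 𝓕.Γ, Fin (𝓕.ar γ) → ℕ) := by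
        show (L.map _)[l] = _
        rw [List.getElem_map, hlr]
      rw [h2] at h1
      have h3 : β l = α ⟨r, hrg⟩ := by
        simp only [β, dif_pos hl, hlr]
      rw [h3] at h1
      have h4 : r = ⟨𝓕.ar (γ ⟨r, hrg⟩), fun a => h (x' ⟨r, hrg⟩ a), 𝓕.G (γ ⟨r, hrg⟩) (α ⟨r, hrg⟩)⟩ := by
        rw [hxe]
        exact hr ⟨r, hrg⟩
      have h5 : RSat (⟨𝓕.ar (γ ⟨r, hrg⟩), fun a => h (x' ⟨r, hrg⟩ a),
          𝓕.G (γ ⟨r, hrg⟩) (α ⟨r, hrg⟩)⟩ : Rule K) k (fun y => p (Function.invFun h y)) := by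
        show (⟨k, fun a => p (Function.invFun h (h (x' ⟨r, hrg⟩ a)))⟩ : Om _) ∈ _
        simp only [hP]
        exact h1
      exact (congrArg (fun r' => RSat r' k (fun y => p (Function.invFun h y))) h4).mpr h5
    · rw [← hCC]
      rw [csat_mapC hinj]
      simp only [hP]
      exact hc

end Pool.Agent.Lib_MP_6d359a_lc
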