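import Pool.Agent.Lib_MP_6d359a_lc.Base
import Pool.Agent.Lib_MP_6d359a_lc.Pull
import Pool.Agent.Lib_MP_6d359a_lc.Abs
import Pool.Agent.Lib_MP_6d359a_lc.SmallU

namespace Pool.Agent.Lib_MP_6d359a_lc

open Set Cardinal

namespace RK

/-- Arities of the enlarged family. -/
def arY (𝓕 : Fam) (n : ℕ) : 𝓕.Γ ⊕ Bool → ℕ
  | Sum.inl γ => 𝓕.ar γ
  | Sum.inr true => 1
  | Sum.inr false => n

/-- Sets of the enlarged family. -/
def GY (𝓕 : Fam) (n : ℕ) (f : Om n → Om 1) (R Y : Set ℕ) :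
    ∀ γ : 𝓕.Γ ⊕ Bool, Set ℕ → Set (Om (arY 𝓕 n γ))
  | Sum.inl γ => 𝓕.G γ
  | Sum.inr true => fun _ => HS R Y
  | Sum.inr false => fun _ => f ⁻¹' (HS R Y)ᶜ

/-- The enlarged family. -/
def FY (𝓕 : Fam) (n : ℕ) (f : Om n → Om 1) (R Y : Set ℕ) : Fam where
  Γ := 𝓕.Γ ⊕ Bool
  ar := arY 𝓕 n
  G := GY 𝓕 n f R Y

/-- The domains of the enlarged family. -/
def DY {K : Type} (𝓕 : Fam) (n : ℕ) (D : ∀ γ : 𝓕.Γ, Set (Fin (𝓕.ar γ) → K)) (K₁ : Set K)
    (D0 : Set (Fin n → K)) : ∀ γ : 𝓕.Γ ⊕ Bool, Set (Fin (arY 𝓕 n γ) → K)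
  | Sum.inl γ => D γ
  | Sum.inr true => {x : Fin 1 → K | x 0 ∈ K₁}
  | Sum.inr false => D0

/-- Entries of skeletons of the enlarged family. -/
abbrev Ent (𝓕 : Fam) (n : ℕ) : Type := Σ γ : 𝓕.Γ ⊕ Bool, Fin (arY 𝓕 n γ) → ℕ

/-- Satisfaction of one entry. -/
def ESat (𝓕 : Fam) (n : ℕ) (f : Om n → Om 1) (R Y : Set ℕ) (e : Ent 𝓕 n) (β : Set ℕ)
    (k : ℕ) (p : ℕ → Blk k) : Prop :=
  (⟨k, fun a => p (e.2 a)⟩ : Om (arY 𝓕 n e.1)) ∈ GY 𝓕 n f R Y e.1 β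

/-- The rules used for one entry. -/
def oldRule {K : Type} (𝓕 : Fam) (n : ℕ) (f : Om n → Om 1) (ks : ℕ) (τ : ℕ → K) (β : Set ℕ) :
    Ent 𝓕 n → Set (Rule K)
  | ⟨Sum.inl γ, x⟩ => {⟨𝓕.ar γ, fun a => τ (x a), 𝓕.G γ β⟩}
  | ⟨Sum.inr true, _⟩ => ∅
  | ⟨Sum.inr false, x⟩ => {⟨n, fun a => τ (x a), f ⁻¹' Lev 1 ks⟩}

theorem oldRule_finite {K : Type} (𝓕 : Fam) (n : ℕ) (f : Om n → Om 1) (ks : ℕ) (τ : ℕ → K)
    (β : Set ℕ) (e : Ent 𝓕 n) : (oldRule 𝓕 n f ks τ β e).Finite := by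
  rcases e with ⟨γ | b, x⟩
  · exact Set.finite_singleton _
  · cases b
    · exact Set.finite_singleton _
    · exact Set.finite_empty

theorem entry_cases {K : Type} (𝓕 : Fam) (n : ℕ) (f : Om n → Om 1) (ks : ℕ) (τ : ℕ → K)
    (R Y β : Set ℕ) (k : ℕ) (p : K → Blk k) (e : Ent 𝓕 n)
    (h1 : ∀ r ∈ oldRule 𝓕 n f ks τ β e, RSat r k p)
    (h2 : ∀ x : Fin 1 → ℕ, e = ⟨Sum.inr true, x⟩ → Hit R 1 Y k (p (τ (x 0))))
    (h3 : ¬ ESat 𝓕 n f R Y e β k (fun m => p (τ m))) :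
    ∃ x : Fin n → ℕ, e = ⟨Sum.inr false, x⟩ ∧
      f ⟨k, fun a => p (τ (x a))⟩ ∈ HS R Y ∧ ks ≤ (f ⟨k, fun a => p (τ (x a))⟩).1 := by
  rcases e with ⟨γ | b, x⟩
  · exact (h3 (h1 _ rfl)).elim
  · cases b
    · refine ⟨x, rfl, ?_, ?_⟩
      · by_contra h
        exact h3 h
      · exact h1 _ rfl
    · exact (h3 (h2 x rfl)).elim

/-- Injective choice from finitely many infinite sets. -/
theorem inj_choice {K I : Type} [Finite I] (A : I → Set K) (hA : ∀ i, (A i).Infinite) :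
    ∃ c : I → K, Function.Injective c ∧ ∀ i, c i ∈ A i := by
  classical
  have := Fintype.ofFinite I
  have h : ∀ i, ∃ t : Finset K, ↑t ⊆ A i ∧ t.card = Fintype.card I := fun i =>
    (hA i).exists_subset_card_eq _
  choose t ht hc using h
  have hall : ∀ s : Finset I, s.card ≤ (s.biUnion t).card := by
    intro s
    rcases s.eq_empty_or_nonempty with rfl | ⟨i, hi⟩
    · simp
    · calc s.card ≤ Fintype.card I := Finset.card_le_univ s
        _ = (t i).card := (hc i).symm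
        _ ≤ (s.biUnion t).card := Finset.card_le_card (Finset.subset_biUnion_of_mem t hi)
  obtain ⟨c, hcinj, hcm⟩ := (Finset.all_card_le_biUnion_card_iff_exists_injective t).1 hall
  exact ⟨c, hcinj, fun i => ht i (hcm i)⟩

/-- Copies of the positions in `K₁`. -/
theorem copies {K : Type} [Infinite K] {E : K → K → Prop} (hE : Equivalence E)
    (hinf : ∀ x, {y | E x y}.Infinite) (K₁ : Set K) (hK₁ : ∀ x y, E x y → x ∈ K₁ → y ∈ K₁)
    (h : ℕ → K) (hinj : Function.Injective h) (P : Finset ℕ) (L : ℕ) :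
    ∃ h' : Fin L → ℕ → K, (∀ l, Function.Injective (h' l)) ∧
      (∀ l, ∀ m ∈ P, h m ∉ K₁ → h' l m = h m) ∧
      (∀ l, ∀ m ∈ P, E (h m) (h' l m)) ∧
      (∀ l l', l ≠ l' → ∀ m ∈ P, ∀ m' ∈ P, h m ∈ K₁ → h m' ∈ K₁ → h' l m ≠ h' l' m') := by
  classical
  obtain ⟨c, hc, hcm⟩ := inj_choice (I := Fin L × P) (fun i => {y | E (h i.2) y})
    (fun i => hinf _)
  have hcE : ∀ (l : Fin L) (m : P), E (h m) (c (l, m)) := fun l m => hcm (l, m)
  have hcK : ∀ (l : Fin L) (m : P), h m ∈ K₁ → c (l, m) ∈ K₁ := fun l m hm =>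
    hK₁ _ _ (hcE l m) hm
  let τ : Fin L → ℕ → K := fun l m =>
    if hm : m ∈ P then (if h m ∈ K₁ then c (l, ⟨m, hm⟩) else h m) else h m
  have τ1 : ∀ l m (hm : m ∈ P), h m ∈ K₁ → τ l m = c (l, ⟨m, hm⟩) := by
    intro l m hm h1
    simp only [τ, dif_pos hm, if_pos h1]
  have τ2 : ∀ l m, m ∈ P → h m ∉ K₁ → τ l m = h m := by
    intro l m hm h1
    simp only [τ, dif_pos hm, if_neg h1]
  have hτ : ∀ l, Set.InjOn (τ l) (P : Set ℕ) := by
    intro l m hm m' hm' he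
    have hm : m ∈ P := hm
    have hm' : m' ∈ P := hm'
    by_cases h1 : h m ∈ K₁
    · by_cases h2 : h m' ∈ K₁
      · rw [τ1 l m hm h1, τ1 l m' hm' h2] at he
        have := hc he
        simpa using this
      · rw [τ1 l m hm h1, τ2 l m' hm' h2] at he
        exact (h2 (he ▸ hcK l ⟨m, hm⟩ h1)).elim
    · by_cases h2 : h m' ∈ K₁
      · rw [τ2 l m hm h1, τ1 l m' hm' h2] at he
        exact (h1 (he ▸ hcK l ⟨m', hm'⟩ h2)).elim
      · rw [τ2 l m hm h1, τ2 l m' hm' h2] at he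
        exact hinj he
  have hex : ∀ l, ∃ τ' : ℕ → K, Function.Injective τ' ∧ ∀ m ∈ P, τ' m = τ l m :=
    fun l => extend_inj P (τ l) (hτ l)
  choose h' hi he using hex
  refine ⟨h', hi, ?_, ?_, ?_⟩
  · intro l m hm h1
    rw [he l m hm, τ2 l m hm h1]
  · intro l m hm
    rw [he l m hm]
    by_cases h1 : h m ∈ K₁
    · rw [τ1 l m hm h1]
      exact hcE l ⟨m, hm⟩
    · rw [τ2 l m hm h1]
      exact hE.refl _
  · intro l l' hll m hm m' hm' h1 h2 heq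
    rw [he l m hm, he l' m' hm', τ1 l m hm h1, τ1 l' m' hm' h2] at heq
    have := hc heq
    exact hll (Prod.ext_iff.1 this).1

/-- The realisable skeletons have no large independent families of bad columns. -/
theorem claim {K : Type} [Infinite K] {E : K → K → Prop} (hE : Equivalence E)
    (hinf : ∀ x, {y | E x y}.Infinite) (𝓕 : Fam) (D : ∀ γ : 𝓕.Γ, Set (Fin (𝓕.ar γ) → K))
    (hD : ∀ γ x y, (∀ a, E (x a) (y a)) → x ∈ D γ → y ∈ D γ)
    (J : Set (Set ℕ)) (hI : IND (rulesOf 𝓕 D) J)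
    (K₁ : Set K) (hK₁ : ∀ x y, E x y → x ∈ K₁ → y ∈ K₁) (n : ℕ) (f : Om n → Om 1)
    (R : Set ℕ) (hR : R ∉ J) (D0 : Set (Fin n → K))
    (hD0 : ∀ x ∈ D0, (∀ a, x a ∉ K₁) ∧
      ∀ k, (⟨n, x, f ⁻¹' Lev 1 k⟩ : Rule K) ∈ rulesOf 𝓕 D)
    (θ : List (Ent 𝓕 n)) (h : ℕ → K) (hinj : Function.Injective h)
    (hθ : ∀ l ∈ θ, (fun a => h (l.2 a)) ∈ DY 𝓕 n D K₁ D0 l.1) :
    ¬ ∃ s : Fin (θ.length + 1) → Set ℕ × ((ℕ → Set ℕ) × Cond ℕ),
      (∀ l, s l ∈ {s : Set ℕ × ((ℕ → Set ℕ) × Cond ℕ) |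
        Disjoint (rows s.2.2) (J ∪ {R}) ∧ Bad (FY 𝓕 n f R s.1) θ s.2.1 s.2.2}) ∧
      ∀ l l', l ≠ l' → (s l).1 ≠ (s l').1 ∧
        Disjoint (rows (s l).2.2) (rows (s l').2.2) := by
  classical
  rintro ⟨s, hs, hsd⟩
  set Y : Fin (θ.length + 1) → Set ℕ := fun l => (s l).1 with hY
  set α : Fin (θ.length + 1) → ℕ → Set ℕ := fun l => (s l).2.1 with hα
  set C : Fin (θ.length + 1) → Cond ℕ := fun l => (s l).2.2 with hC
  have hCJ : ∀ l, Disjoint (rows (C l)) (J ∪ {R}) := fun l => (hs l).1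
  have hbad : ∀ l, Bad (FY 𝓕 n f R (Y l)) θ (α l) (C l) := fun l => (hs l).2
  have hYne : ∀ l l', l ≠ l' → Y l ≠ Y l' := fun l l' hl => (hsd l l' hl).1
  have hCdis : ∀ l l', l ≠ l' → Disjoint (rows (C l)) (rows (C l')) :=
    fun l l' hl => (hsd l l' hl).2
  choose k₀ hk₀ using hbad
  -- positions of the skeleton
  have hPfin : {m : ℕ | ∃ e ∈ θ, ∃ a, e.2 a = m}.Finite := by
    have h1 : {m : ℕ | ∃ e ∈ θ, ∃ a, e.2 a = m} = ⋃ e ∈ {e | e ∈ θ}, Set.range e.2 := by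
      ext m
      simp
    rw [h1]
    exact Set.Finite.biUnion (List.finite_toSet θ) (fun e _ => Set.finite_range _)
  set P : Finset ℕ := hPfin.toFinset with hP
  have hPm : ∀ e ∈ θ, ∀ a, e.2 a ∈ P := by
    intro e he a
    rw [hP, Set.Finite.mem_toFinset]
    exact ⟨e, he, a, rfl⟩
  obtain ⟨h', hi', hold, hEq, hnew⟩ := copies hE hinf K₁ hK₁ h hinj P (θ.length + 1)
  obtain ⟨ks, hks⟩ := res_injOn (Set.range Y) (Set.finite_range Y)
  -- the finite set of rules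
  set g : Set (Rule K) := ⋃ l : Fin (θ.length + 1), ⋃ j : Fin θ.length,
    oldRule 𝓕 n f ks (h' l) (α l j) θ[j] with hg
  have hgfin : g.Finite :=
    Set.finite_iUnion (fun l => Set.finite_iUnion (fun j => oldRule_finite _ _ _ _ _ _ _))
  have hgF : g ⊆ rulesOf 𝓕 D := by
    intro r hr
    obtain ⟨l, hr⟩ := Set.mem_iUnion.1 hr
    obtain ⟨j, hr⟩ := Set.mem_iUnion.1 hr
    have hmem : θ[j] ∈ θ := List.getElem_mem _
    have hdom := hθ _ hmem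
    have hpos := hPm _ hmem
    generalize θ[j] = e at hr hdom hpos
    rcases e with ⟨γ | b, x⟩
    · have hr : r = ⟨𝓕.ar γ, fun a => h' l (x a), 𝓕.G γ (α l j)⟩ := hr
      refine ⟨γ, α l j, fun a => h' l (x a), ?_, hr⟩
      exact hD γ (fun a => h (x a)) _ (fun a => hEq l _ (hpos a)) hdom
    · cases b
      · have hr : r = ⟨n, fun a => h' l (x a), f ⁻¹' Lev 1 ks⟩ := hr
        have hdom : (fun a => h (x a)) ∈ D0 := hdom
        have hx : ∀ z y : Fin n → K, z = y → y ∈ D0 →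
            (⟨n, z, f ⁻¹' Lev 1 ks⟩ : Rule K) ∈ rulesOf 𝓕 D := by
          rintro z y rfl hy
          exact (hD0 _ hy).2 ks
        rw [hr]
        refine hx _ (fun a => h (x a)) ?_ hdom
        funext a
        exact hold l _ (hpos a) ((hD0 _ hdom).1 a)
      · exact hr.elim
  -- the condition
  set Q : Finset ℕ := P.filter (fun m => h m ∈ K₁) with hQ
  set C1 : Cond K := Finset.univ.biUnion (fun l : Fin (θ.length + 1) => mapC (h' l) (C l))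
    with hC1
  set C2 : Cond K := Finset.univ.biUnion (fun l : Fin (θ.length + 1) =>
    Q.image (fun m => (h' l m, R, Y l))) with hC2
  have hC1m : ∀ t, t ∈ C1 ↔ ∃ l, t ∈ mapC (h' l) (C l) := by
    intro t
    simp [hC1]
  have hC2m : ∀ t, t ∈ C2 ↔ ∃ l, ∃ m ∈ Q, (h' l m, R, Y l) = t := by
    intro t
    simp [hC2]
  have hrow1 : ∀ l, ∀ t ∈ mapC (h' l) (C l), t.2.1 ∈ rows (C l) := by
    intro l t ht
    rw [← rows_mapC (h' l) (C l)]
    exact ⟨t, ht, rfl⟩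
  have hRC : ∀ l, R ∉ rows (C l) := by
    intro l hl
    exact Set.disjoint_left.1 (hCJ l) hl (Or.inr rfl)
  have hdisj : Disjoint (rows (C1 ∪ C2)) J := by
    rw [Set.disjoint_left]
    rintro R' ⟨t, ht, rfl⟩ hJ
    rcases Finset.mem_union.1 ht with ht | ht
    · obtain ⟨l, hl⟩ := (hC1m t).1 ht
      exact Set.disjoint_left.1 (hCJ l) (hrow1 l t hl) (Or.inl hJ)
    · obtain ⟨l, m, _, rfl⟩ := (hC2m t).1 ht
      exact hR hJ
  obtain ⟨k, hk, p, hp1, hp2⟩ := hI g hgfin hgF (C1 ∪ C2) hdisj (Finset.univ.sup k₀)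
  have hkl : ∀ l, k₀ l ≤ k := fun l => (Finset.le_sup (Finset.mem_univ l)).trans hk
  -- the conditions `C l` are satisfied
  have hcs : ∀ l, CSat (C l) k (fun m => p (h' l m)) := by
    intro l
    rw [← csat_mapC (hi' l)]
    refine csat_mono (C' := C1 ∪ C2) ?_ ?_ hp2
    · intro t ht
      exact Finset.mem_union_left _ ((hC1m t).2 ⟨l, ht⟩)
    · intro t ht hr
      rw [rows_mapC] at hr
      rcases Finset.mem_union.1 ht with ht | ht
      · obtain ⟨l', hl'⟩ := (hC1m t).1 ht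
        by_cases hll : l' = l
        · rw [← hll]
          exact hl'
        · exact (Set.disjoint_left.1 (hCdis l' l hll) (hrow1 l' t hl') hr).elim
      · obtain ⟨l', m, _, rfl⟩ := (hC2m t).1 ht
        exact (hRC l hr).elim
  -- the hits in row `R`
  have hhit : ∀ l, ∀ m ∈ Q, Hit R 1 (Y l) k (p (h' l m)) := by
    intro l m hm
    have ht : (h' l m, R, Y l) ∈ C1 ∪ C2 :=
      Finset.mem_union_right _ ((hC2m _).2 ⟨l, m, hm, rfl⟩)
    have h1 := hp2 _ ht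
    refine ⟨h1.1.trans ?_, h1.2⟩
    show colcard (C1 ∪ C2) (h' l m) R ≤ 1
    unfold colcard
    have hsub : (C1 ∪ C2).filter (fun s => s.1 = h' l m ∧ s.2.1 = R) ⊆ {(h' l m, R, Y l)} := by
      intro t ht
      rw [Finset.mem_filter] at ht
      obtain ⟨ht, ht1, ht2⟩ := ht
      rw [Finset.mem_singleton]
      rcases Finset.mem_union.1 ht with ht | ht
      · obtain ⟨l', hl'⟩ := (hC1m t).1 ht
        exact (hRC l' (ht2 ▸ hrow1 l' t hl')).elim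
      · obtain ⟨l', m', hm', rfl⟩ := (hC2m t).1 ht
        have ht1 : h' l' m' = h' l m := ht1
        by_cases hll : l' = l
        · subst hll
          rw [ht1]
        · rw [hQ, Finset.mem_filter] at hm hm'
          exact (hnew l' l hll m' hm'.1 m hm.1 hm'.2 hm.2 ht1).elim
    calc _ ≤ ({(h' l m, R, Y l)} : Finset (K × Set ℕ × Set ℕ)).card :=
          Finset.card_le_card hsub
      _ = 1 := Finset.card_singleton _
  -- a failing entry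
  have hfail : ∀ l, ∃ j : Fin θ.length, ∃ x : Fin n → ℕ, θ[j] = ⟨Sum.inr false, x⟩ ∧
      f ⟨k, fun a => p (h' l (x a))⟩ ∈ HS R (Y l) ∧
      ks ≤ (f ⟨k, fun a => p (h' l (x a))⟩).1 := by
    intro l
    have h1 : ¬ SSat (FY 𝓕 n f R (Y l)) θ (α l) k (fun m => p (h' l m)) := fun h2 =>
      hk₀ l k (hkl l) _ ⟨h2, hcs l⟩
    have h2 : ∃ (j : ℕ) (hj : j < θ.length),
        ¬ ESat 𝓕 n f R (Y l) θ[j] (α l j) k (fun m => p (h' l m)) := by
      by_contra hcon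
      push Not at hcon
      exact h1 hcon
    obtain ⟨j, hj, h2⟩ := h2
    refine ⟨⟨j, hj⟩, ?_⟩
    refine entry_cases 𝓕 n f ks (h' l) R (Y l) (α l j) k p _ ?_ ?_ h2
    · intro r hr
      refine hp1 r ?_
      rw [hg]
      exact Set.mem_iUnion.2 ⟨l, Set.mem_iUnion.2 ⟨⟨j, hj⟩, hr⟩⟩
    · intro x hx
      refine hhit l _ ?_
      rw [hQ, Finset.mem_filter]
      have hmem : θ[j] ∈ θ := List.getElem_mem _
      have hx' : θ[j] = ⟨Sum.inr true, x⟩ := hx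
      rw [hx'] at hmem
      exact ⟨hPm _ hmem (0 : Fin 1), hθ _ hmem⟩
  choose j x hjx hf1 hf2 using hfail
  obtain ⟨l, l', hll, hjj⟩ := Fintype.exists_ne_map_eq_of_card_lt j (by simp)
  have hxx : x l = x l' := by
    have h1 : (⟨Sum.inr false, x l⟩ : Ent 𝓕 n) = ⟨Sum.inr false, x l'⟩ := by
      rw [← hjx l, ← hjx l', hjj]
    simp only [Sigma.mk.injEq, heq_eq_eq, true_and] at h1
    exact h1
  have hmem : (⟨Sum.inr false, x l⟩ : Ent 𝓕 n) ∈ θ := by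
    rw [← hjx l]
    exact List.getElem_mem _
  have hdom : (fun a => h (x l a)) ∈ D0 := hθ _ hmem
  have hval : ∀ l'', (fun a => p (h' l'' (x l a))) = fun a => p (h (x l a)) := by
    intro l''
    funext a
    rw [hold l'' _ (hPm _ hmem a) ((hD0 _ hdom).1 a)]
  have a1 := hf1 l
  have a2 := hf2 l
  have b1 := hf1 l'
  rw [← hxx, hval l'] at b1
  rw [hval l] at a1 a2
  set q := f ⟨k, fun a => p (h (x l a))⟩ with hq
  have a3 : Hit R 1 (Y l) q.1 (q.2 0) := a1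
  have b3 : Hit R 1 (Y l') q.1 (q.2 0) := b1
  have hres : res q.1 (Y l) = res q.1 (Y l') :=
    Finset.card_le_one.1 a3.1 _ a3.2 _ b3.2
  exact hYne l l' hll (hks q.1 a2 (Set.mem_range_self l) (Set.mem_range_self l') hres)

end RK

open RK in
theorem rk_step {K : Type} [Infinite K] {E : K → K → Prop} (hE : Equivalence E)
    (hinf : ∀ x, {y | E x y}.Infinite) (κ : Cardinal.{0})
    (hκ : ℵ₀ ≤ κ) (hκc : κ < continuum)
    (F : Set (Rule K)) (J : Set (Set ℕ)) (hI : IND F J) (hInv : Inv E F) (hS : Small κ F)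
    (hJ : #J ≤ κ) (K₁ : Set K) (hK₁ : ∀ x y, E x y → x ∈ K₁ → y ∈ K₁)
    (n : ℕ) (f : Om n → Om 1) :
    ∃ (F' : Set (Rule K)) (J' : Set (Set ℕ)), F ⊆ F' ∧ J ⊆ J' ∧ IND F' J' ∧ Inv E F' ∧
      Small κ F' ∧ #J' ≤ κ ∧ ∃ R Y : Set ℕ,
        (∀ y ∈ K₁, (⟨1, fun _ => y, HS R Y⟩ : Rule K) ∈ F') ∧
        ∀ x : Fin n → K, (∀ a, x a ∉ K₁) →
          (∀ k, (⟨n, x, f ⁻¹' Lev 1 k⟩ : Rule K) ∈ F) →
            (⟨n, x, f ⁻¹' (HS R Y)ᶜ⟩ : Rule K) ∈ F' := by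
  classical
  obtain ⟨𝓕, D, hΓ, hFD, hD⟩ := exists_inv_dom hInv hS
  have hcont : ∀ T : Set (Set ℕ), #T ≤ κ → ∃ R : Set ℕ, R ∉ T := by
    intro T hT
    by_contra hcon
    push Not at hcon
    have h1 : T = Set.univ := Set.eq_univ_of_forall hcon
    have h2 : #T = continuum := by
      rw [h1, Cardinal.mk_univ, Cardinal.mk_set, Cardinal.mk_nat, Cardinal.two_power_aleph0]
    exact absurd (h2 ▸ hT) (not_le.2 hκc)
  obtain ⟨R, hR⟩ := hcont J hJ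
  let D0 : Set (Fin n → K) := {x | (∀ a, x a ∉ K₁) ∧
    ∀ k, (⟨n, x, f ⁻¹' Lev 1 k⟩ : Rule K) ∈ F}
  have hD0 : ∀ x ∈ D0, (∀ a, x a ∉ K₁) ∧
      ∀ k, (⟨n, x, f ⁻¹' Lev 1 k⟩ : Rule K) ∈ rulesOf 𝓕 D := by
    intro x hx
    rw [← hFD]
    exact hx
  have hIF : IND (rulesOf 𝓕 D) J := hFD ▸ hI
  -- blocking sets
  have hblock : ∀ θ : List (Ent 𝓕 n), ∃ (T : Set (Set ℕ)) (B : Set (Set ℕ)),
      T.Finite ∧ B.Finite ∧
      ((∃ h : ℕ → K, Function.Injective h ∧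
        ∀ l ∈ θ, (fun a => h (l.2 a)) ∈ DY 𝓕 n D K₁ D0 l.1) →
      ∀ (Y : Set ℕ) (α : ℕ → Set ℕ) (C : Cond ℕ), Disjoint (rows C) (J ∪ {R}) →
        Bad (FY 𝓕 n f R Y) θ α C → Y ∈ B ∨ ¬ Disjoint (rows C) T) := by
    intro θ
    by_cases hθ : ∃ h : ℕ → K, Function.Injective h ∧
        ∀ l ∈ θ, (fun a => h (l.2 a)) ∈ DY 𝓕 n D K₁ D0 l.1
    · obtain ⟨h, hinj, hh⟩ := hθ
      obtain ⟨T, B, hT, hB, hTB⟩ := blocking (X := (ℕ → Set ℕ) × Cond ℕ) (Y := Set ℕ)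
        (fun x => rows x.2) (fun x => rows_finite x.2) _ θ.length
        (claim hE hinf 𝓕 D hD J hIF K₁ hK₁ n f R hR D0 hD0 θ h hinj hh)
      refine ⟨T, B, hT, hB, fun _ Y α C hC hbad => ?_⟩
      exact hTB (Y, (α, C)) ⟨hC, hbad⟩
    · exact ⟨∅, ∅, Set.finite_empty, Set.finite_empty, fun h => (hθ h).elim⟩
  choose T B hT hB hTB using hblock
  -- cardinalities
  have hEnt : #(Ent 𝓕 n) ≤ κ := by
    rw [Cardinal.mk_sigma]
    have h1 : #(𝓕.Γ ⊕ Bool) ≤ κ := by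
      rw [Cardinal.mk_sum, Cardinal.lift_id, Cardinal.lift_id]
      refine Cardinal.add_le_of_le hκ hΓ ?_
      exact (Cardinal.lt_aleph0_of_finite Bool).le.trans hκ
    calc Cardinal.sum (fun γ : 𝓕.Γ ⊕ Bool => #(Fin (arY 𝓕 n γ) → ℕ))
        ≤ Cardinal.sum (fun _ : 𝓕.Γ ⊕ Bool => ℵ₀) := by
          refine Cardinal.sum_le_sum _ _ (fun γ => ?_)
          exact Cardinal.mk_le_aleph0
      _ = #(𝓕.Γ ⊕ Bool) * ℵ₀ := by
          rw [Cardinal.sum_const, Cardinal.lift_id, Cardinal.lift_id]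
      _ ≤ κ * κ := mul_le_mul' h1 hκ
      _ = κ := Cardinal.mul_eq_self hκ
  have hSk : #(List (Ent 𝓕 n)) ≤ κ :=
    (Cardinal.mk_list_le_max _).trans (max_le hκ hEnt)
  have hUn : ∀ A : List (Ent 𝓕 n) → Set (Set ℕ), (∀ θ, (A θ).Finite) → #(⋃ θ, A θ) ≤ κ := by
    intro A hA
    refine (Cardinal.mk_iUnion_le _).trans ?_
    have h2 : (⨆ θ, #(A θ)) ≤ κ := by
      refine ciSup_le' ?_
      intro θ
      exact (Cardinal.lt_aleph0_iff_set_finite.2 (hA θ)).le.trans hκ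
    calc #(List (Ent 𝓕 n)) * (⨆ θ, #(A θ)) ≤ κ * κ := mul_le_mul' hSk h2
      _ = κ := Cardinal.mul_eq_self hκ
  obtain ⟨Y, hY⟩ := hcont (⋃ θ, B θ) (hUn B hB)
  refine ⟨rulesOf (FY 𝓕 n f R Y) (DY 𝓕 n D K₁ D0), (J ∪ {R}) ∪ (⋃ θ, T θ), ?_, ?_, ?_, ?_,
    ?_, ?_, R, Y, ?_, ?_⟩
  · rw [hFD]
    rintro r ⟨γ, β, x, hx, rfl⟩
    exact ⟨Sum.inl γ, β, x, hx, rfl⟩
  · exact fun r hr => Or.inl (Or.inl hr)
  · by_contra hcon
    obtain ⟨h, θ, α, C, hinj, hθ, hC, hbad⟩ := exists_bad (FY 𝓕 n f R Y) (DY 𝓕 n D K₁ D0) _ hcon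
    have hC' : Disjoint (rows C) (J ∪ {R}) := hC.mono_right Set.subset_union_left
    rcases hTB θ ⟨h, hinj, hθ⟩ Y α C hC' hbad with h1 | h1
    · exact hY (Set.mem_iUnion.2 ⟨θ, h1⟩)
    · refine h1 (hC.mono_right ?_)
      exact (Set.subset_iUnion T θ).trans Set.subset_union_right
  · rintro m x y G hxy ⟨γ, β, x', hx', he⟩
    cases he
    refine ⟨γ, β, y, ?_, rfl⟩
    rcases γ with γ | b
    · exact hD γ x' y hxy hx'
    · cases b
      · refine ⟨fun a ha => ?_, fun k => ?_⟩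
        · exact hx'.1 a (hK₁ _ _ (hE.symm (hxy a)) ha)
        · exact hInv n x' y _ hxy (hx'.2 k)
      · exact hK₁ _ _ (hxy (0 : Fin 1)) hx'
  · refine ⟨FY 𝓕 n f R Y, DY 𝓕 n D K₁ D0, ?_, rfl⟩
    show #(𝓕.Γ ⊕ Bool) ≤ κ
    rw [Cardinal.mk_sum, Cardinal.lift_id, Cardinal.lift_id]
    refine Cardinal.add_le_of_le hκ hΓ ?_
    exact (Cardinal.lt_aleph0_of_finite Bool).le.trans hκ
  · refine (Cardinal.mk_union_le _ _).trans (Cardinal.add_le_of_le hκ ?_ (hUn T hT))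
    refine (Cardinal.mk_union_le _ _).trans (Cardinal.add_le_of_le hκ hJ ?_)
    rw [Cardinal.mk_singleton]
    exact Cardinal.one_le_aleph0.trans hκ
  · intro y hy
    exact ⟨Sum.inr true, ∅, fun _ => y, hy, rfl⟩
  · intro x hx hk
    exact ⟨Sum.inr false, ∅, x, ⟨hx, hk⟩, rfl⟩

end Pool.Agent.Lib_MP_6d359a_lc
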