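import Pool.Agent.Lib_MP_6d359a_lc.Defs

namespace Pool.Agent.Lib_MP_6d359a_lc

open Set Cardinal

theorem mk_W : #W = continuum := Cardinal.mk_ord_toType continuum

theorem mk_Iio_lt (w : W) : #(Iio w) < continuum := Cardinal.mk_Iio_toType_ord_lt w

theorem kap_lt (w : W) : kap w < continuum :=
  max_lt (mk_Iio_lt w) aleph0_lt_continuum

theorem le_kap (w : W) : ℵ₀ ≤ kap w := le_max_right _ _

theorem kap_mono {v w : W} (h : v ≤ w) : kap v ≤ kap w :=
  max_le_max (mk_le_mk_of_subset (Iio_subset_Iio h)) le_rfl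

theorem W_bounded (s : ℕ → W) : ∃ w, ∀ j, s j < w := by
  by_contra hcon
  push Not at hcon
  have hcof : IsCofinal (Set.range s) := by
    intro w
    obtain ⟨j, hj⟩ := hcon w
    exact ⟨s j, ⟨j, rfl⟩, hj⟩
  have h1 : Order.cof W ≤ #(Set.range s) := Order.cof_le hcof
  have h2 : #(Set.range s) ≤ ℵ₀ := Cardinal.mk_range_le.trans (by simp)
  have h3 : Order.cof W = (continuum.{0}).ord.cof := Ordinal.cof_toType _
  have h4 : (continuum.{0}) < continuum ^ (continuum.{0}).ord.cof :=
    Cardinal.lt_power_cof_ord aleph0_le_continuum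
  have h5 : (continuum.{0}) ^ (continuum.{0}).ord.cof ≤ continuum ^ (ℵ₀ : Cardinal.{0}) := by
    apply Cardinal.power_le_power_left
    · exact continuum_ne_zero
    · rw [← h3]
      exact h1.trans h2
  rw [continuum_power_aleph0] at h5
  exact absurd h4 (not_lt.2 h5)

theorem EE_equiv (w : W) : Equivalence (EE w) where
  refl := fun _ _ _ => rfl
  symm := fun h v hv => (h v hv).symm
  trans := fun h1 h2 v hv => (h1 v hv).trans (h2 v hv)

theorem EE_mono {v w : W} (h : v ≤ w) {x y : KK} (hxy : EE w x y) : EE v x y :=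
  fun u hu => hxy u (lt_of_lt_of_le hu h)

theorem infinite_W : Infinite W := by
  rw [Cardinal.infinite_iff, mk_W]
  exact aleph0_le_continuum

theorem infinite_Ici (w : W) : (Ici w).Infinite := by
  intro hfin
  have hu : (Iio w ∪ Ici w : Set W) = Set.univ := Iio_union_Ici
  have h1 : #(Ici w) < ℵ₀ := Cardinal.lt_aleph0_iff_set_finite.2 hfin
  have h2 : #(Iio w ∪ Ici w : Set W) < continuum := by
    refine lt_of_le_of_lt (Cardinal.mk_union_le _ _) ?_
    exact Cardinal.add_lt_of_lt aleph0_le_continuum (mk_Iio_lt w)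
      (h1.trans aleph0_lt_continuum)
  rw [hu, Cardinal.mk_univ, mk_W] at h2
  exact lt_irrefl _ h2

theorem EE_infinite (w : W) (x : KK) : {y | EE w x y}.Infinite := by
  classical
  have hinj : Set.InjOn (fun v : W => Function.update x v (!(x v))) (Ici w) := by
    intro v _ v' _ h
    by_contra hne
    have h1 := congrFun h v
    simp only [Function.update_self] at h1
    rw [Function.update_of_ne hne] at h1
    cases hx : x v <;> simp [hx] at h1
  refine Set.Infinite.mono ?_ ((infinite_Ici w).image hinj)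
  rintro y ⟨v, hv, rfl⟩ u hu
  have : u ≠ v := ne_of_lt (lt_of_lt_of_le hu hv)
  simp only [Function.update_of_ne this]

theorem KK_infinite : Infinite KK := by
  have := infinite_W
  exact Pi.infinite_of_left

theorem mk_Set_countable (α : Type) [Countable α] : #(Set α) ≤ continuum := by
  rw [Cardinal.mk_set]
  calc (2 : Cardinal.{0}) ^ #α ≤ 2 ^ (ℵ₀ : Cardinal.{0}) :=
        Cardinal.power_le_power_left two_ne_zero (Cardinal.mk_le_aleph0)
    _ = continuum := two_power_aleph0

theorem mk_fun_countable (α β : Type) [Countable α] [Nonempty β] (hβ : #β ≤ continuum) :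
    #(α → β) ≤ continuum := by
  rw [← Cardinal.power_def]
  calc #β ^ #α ≤ continuum ^ #α := Cardinal.power_le_power_right hβ
    _ ≤ continuum ^ (ℵ₀ : Cardinal.{0}) :=
        Cardinal.power_le_power_left continuum_ne_zero (Cardinal.mk_le_aleph0)
    _ = continuum := continuum_power_aleph0

theorem mk_sigma_nat (A : ℕ → Type) (hA : ∀ n, #(A n) ≤ continuum) :
    #(Σ n, A n) ≤ continuum := by
  rw [Cardinal.mk_sigma]
  refine (Cardinal.sum_le_sum _ (fun _ => continuum) hA).trans ?_
  rw [Cardinal.sum_const', Cardinal.mk_nat, Cardinal.aleph0_mul_continuum]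

theorem mk_Req : #Req ≤ continuum := by
  classical
  let A : ℕ → Type := fun n => Set (Om n) ⊕ (ℕ → Set (Om (n + 1))) ⊕
    ((Om n → Om 1) × (Finset W × Finset W))
  let enc : Req → Σ n, A n := fun ρ => match ρ with
    | .dec n Z => ⟨n, Sum.inl Z⟩
    | .ok n U => ⟨n, Sum.inr (Sum.inl U)⟩
    | .rk n f v₀ v₁ => ⟨n, Sum.inr (Sum.inr (f, (v₀, v₁)))⟩
  let dec : (Σ n, A n) → Req := fun p => match p with
    | ⟨n, Sum.inl Z⟩ => .dec n Z
    | ⟨n, Sum.inr (Sum.inl U)⟩ => .ok n U
    | ⟨n, Sum.inr (Sum.inr (f, (v₀, v₁)))⟩ => .rk n f v₀ v₁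
  have henc : Function.Injective enc := by
    have hleft : Function.LeftInverse dec enc := by
      intro ρ
      cases ρ <;> rfl
    exact hleft.injective
  refine (Cardinal.mk_le_of_injective henc).trans (mk_sigma_nat A ?_)
  intro n
  have hOm : ∀ n, Countable (Om n) := fun n => inferInstance
  have hadd : ∀ {a b : Cardinal.{0}}, a ≤ continuum → b ≤ continuum → a + b ≤ continuum :=
    fun h1 h2 => Cardinal.add_le_of_le aleph0_le_continuum h1 h2
  have hmul : ∀ {a b : Cardinal.{0}}, a ≤ continuum → b ≤ continuum → a * b ≤ continuum :=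
    fun h1 h2 => Cardinal.mul_le_of_le aleph0_le_continuum h1 h2
  have hF : #(Finset W) ≤ continuum := by
    have := infinite_W
    rw [Cardinal.mk_finset_of_infinite, mk_W]
  have hne : Nonempty (Om 1) := ⟨⟨0, fun _ => fun _ => ∅⟩⟩
  show #(Set (Om n) ⊕ (ℕ → Set (Om (n + 1))) ⊕
    ((Om n → Om 1) × (Finset W × Finset W))) ≤ continuum
  simp only [Cardinal.mk_sum, Cardinal.lift_id, Cardinal.mk_prod]
  refine hadd (mk_Set_countable _) (hadd ?_ (hmul ?_ (hmul hF hF)))
  · exact mk_fun_countable _ _ (mk_Set_countable _)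
  · exact mk_fun_countable _ _ ((Cardinal.mk_le_aleph0).trans aleph0_le_continuum)

theorem exists_enum : ∃ req : W → Req, ∀ (ρ : Req) (w : W), ∃ w', w < w' ∧ req w' = ρ := by
  have hne : Nonempty Req := ⟨Req.dec 0 ∅⟩
  have hcard : #W = #(W × Req) := by
    rw [Cardinal.mk_prod, Cardinal.lift_id, Cardinal.lift_id, mk_W]
    refine le_antisymm ?_ ?_
    · calc (continuum : Cardinal.{0}) = continuum * 1 := (mul_one _).symm
        _ ≤ continuum * #Req := by
            gcongr
            exact Cardinal.one_le_iff_ne_zero.2 (Cardinal.mk_ne_zero_iff.2 hne)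
    · exact Cardinal.mul_le_of_le aleph0_le_continuum le_rfl mk_Req
  obtain ⟨e⟩ := Cardinal.eq.1 hcard
  refine ⟨fun w => (e w).2, fun ρ w => ?_⟩
  by_contra hcon
  push Not at hcon
  have hsub : Set.range (fun v : W => e.symm (v, ρ)) ⊆ Iic w := by
    rintro _ ⟨v, rfl⟩
    by_contra hlt
    exact hcon _ (not_le.1 hlt) (by simp)
  have h1 : #(Set.range (fun v : W => e.symm (v, ρ))) = continuum := by
    rw [Cardinal.mk_range_eq, mk_W]
    intro v v' h
    have := e.symm.injective h
    exact (Prod.ext_iff.1 this).1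
  have h2 : #(Iic w) < continuum := by
    rw [← Iio_insert]
    refine lt_of_le_of_lt (Cardinal.mk_insert_le) ?_
    exact Cardinal.add_lt_of_lt aleph0_le_continuum (mk_Iio_lt w)
      (Cardinal.one_lt_aleph0.trans aleph0_lt_continuum)
  have h3 := Cardinal.mk_le_mk_of_subset hsub
  rw [h1] at h3
  exact absurd h2 (not_lt.2 h3)

theorem exists_embedding : ∃ i : Ultrafilter ℕ → KK, Function.Injective i ∧
    ∃ s, s ∉ Set.range i := by
  classical
  have hcard : #W = #(Set ℕ) := by
    rw [mk_W, Cardinal.mk_set, Cardinal.mk_nat, two_power_aleph0]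
  obtain ⟨e⟩ := Cardinal.eq.1 hcard
  refine ⟨fun u w => decide (e w ∈ u), ?_, fun _ => false, ?_⟩
  · intro u v h
    ext s
    have := congrFun h (e.symm s)
    simpa using this
  · rintro ⟨u, hu⟩
    have := congrFun hu (e.symm Set.univ)
    simp only [Equiv.apply_symm_apply, decide_eq_false_iff_not] at this
    exact this Filter.univ_mem

end Pool.Agent.Lib_MP_6d359a_lc
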