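import Pool.Agent.Lib_MP_6d359a_lc.Decision
import Pool.Agent.Lib_MP_6d359a_lc.OKStep
import Pool.Agent.Lib_MP_6d359a_lc.RKStep
import Pool.Agent.Lib_MP_6d359a_lc.Wfacts

namespace Pool.Agent.Lib_MP_6d359a_lc

open Set Cardinal

theorem transfinite {A : Type} [Nonempty A] {W : Type} [LinearOrder W] [WellFoundedLT W]
    (P : ∀ w : W, (W → A) → A → Prop)
    (hP : ∀ w f g a, (∀ v < w, f v = g v) → P w f a → P w g a)
    (hex : ∀ (w : W) (f : W → A), (∀ v < w, P v f (f v)) → ∃ a, P w f a) :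
    ∃ f : W → A, ∀ w, P w f (f w) := by
  classical
  obtain ⟨a₀⟩ := ‹Nonempty A›
  let ext : ∀ w : W, (∀ v : W, v < w → A) → W → A :=
    fun w ih v => if hv : v < w then ih v hv else a₀
  let F : ∀ w : W, (∀ v : W, v < w → A) → A :=
    fun w ih => if h : ∃ a, P w (ext w ih) a then h.choose else a₀
  let wf : WellFounded (fun v w : W => v < w) := wellFounded_lt
  let f : W → A := wf.fix F
  have hf : ∀ w, f w = F w (fun v _ => f v) := fun w => wf.fix_eq F w
  refine ⟨f, ?_⟩
  intro w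
  induction w using WellFoundedLT.induction with
  | ind w ih =>
    obtain ⟨a, ha⟩ := hex w f ih
    have hext : ∀ v < w, f v = ext w (fun v _ => f v) v := by
      intro v hv
      simp only [ext, dif_pos hv]
    have h : ∃ a, P w (ext w (fun v _ => f v)) a := ⟨a, hP w _ _ a hext ha⟩
    have h2 : f w = h.choose := by
      rw [hf w]
      simp only [F, dif_pos h]
    rw [h2]
    exact hP w _ _ _ (fun v hv => (hext v hv).symm) h.choose_spec

theorem ind_iUnion {ι : Type} {W : Type} [LinearOrder W] (w : W)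
    (F : W → Set (Rule ι)) (J : W → Set (Set ℕ)) (hF : ∀ u v, u ≤ v → v < w → F u ⊆ F v)
    (hind : ∀ v < w, IND (F v) (J v)) :
    IND (⋃ v : Iio w, F v) (⋃ v : Iio w, J v) := by
  classical
  intro g hg hgF C hC k₀
  have hC' : ∀ v < w, Disjoint (rows C) (J v) := by
    intro v hv
    refine hC.mono_right ?_
    exact Set.subset_iUnion (fun v : Iio w => J v) ⟨v, hv⟩
  rcases isEmpty_or_nonempty (Iio w) with he | hne
  · have h0 : g ⊆ (∅ : Set (Rule ι)) := by
      intro r hr
      obtain ⟨v, _⟩ := Set.mem_iUnion.1 (hgF hr)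
      exact (he.false v).elim
    exact ind_empty (⋃ v : Iio w, J v) g hg h0 C hC k₀
  · -- all of `g` lies in one `F v`
    have key : ∀ g : Set (Rule ι), g.Finite → g ⊆ (⋃ v : Iio w, F v) →
        ∃ v < w, g ⊆ F v := by
      intro g hg
      induction g, hg using Set.Finite.induction_on with
      | empty =>
        intro _
        obtain ⟨v⟩ := hne
        exact ⟨v, v.2, Set.empty_subset _⟩
      | @insert a s _ _ ih =>
        intro hs
        obtain ⟨v, hv, hsv⟩ := ih (fun r hr => hs (Set.mem_insert_of_mem _ hr))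
        obtain ⟨u, hu⟩ := Set.mem_iUnion.1 (hs (Set.mem_insert a s))
        refine ⟨max (u : W) v, max_lt u.2 hv, ?_⟩
        intro r hr
        rcases Set.mem_insert_iff.1 hr with rfl | hr
        · exact hF u _ (le_max_left _ _) (max_lt u.2 hv) hu
        · exact hF v _ (le_max_right _ _) (max_lt u.2 hv) (hsv hr)
    obtain ⟨v, hv, hgv⟩ := key g hg hgF
    exact hind v hv g hg hgv C (hC' v hv) k₀

theorem exists_chain (req : W → Req) :
    ∃ (F : W → Set (Rule KK)) (J : W → Set (Set ℕ)),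
      (∀ v w, v ≤ w → F v ⊆ F w) ∧ (∀ w, IND (F w) (J w)) ∧
      (∀ w, Goal w (⋃ v : Iio w, F v) (F w) (req w)) := by
  classical
  let P : ∀ w : W, (W → Set (Rule KK) × Set (Set ℕ)) → Set (Rule KK) × Set (Set ℕ) → Prop :=
    fun w f a => (∀ v < w, (f v).1 ⊆ a.1) ∧ IND a.1 a.2 ∧ Inv (EE w) a.1 ∧
      Small (kap w) a.1 ∧ #a.2 ≤ kap w ∧ Goal w (⋃ v : Iio w, (f v).1) a.1 (req w)
  have hP : ∀ w f g a, (∀ v < w, f v = g v) → P w f a → P w g a := by
    intro w f g a hfg h
    have hU : (⋃ v : Iio w, (f v).1) = ⋃ v : Iio w, (g v).1 := by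
      refine Set.iUnion_congr ?_
      intro v
      rw [hfg v v.2]
    refine ⟨fun v hv => ?_, h.2.1, h.2.2.1, h.2.2.2.1, h.2.2.2.2.1, ?_⟩
    · rw [← hfg v hv]
      exact h.1 v hv
    · rw [← hU]
      exact h.2.2.2.2.2
  have hex : ∀ (w : W) (f : W → Set (Rule KK) × Set (Set ℕ)),
      (∀ v < w, P v f (f v)) → ∃ a, P w f a := by
    intro w f hf
    set F₀ : Set (Rule KK) := ⋃ v : Iio w, (f v).1 with hF₀
    set J₀ : Set (Set ℕ) := ⋃ v : Iio w, (f v).2 with hJ₀
    have hsub : ∀ v < w, (f v).1 ⊆ F₀ := fun v hv =>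
      Set.subset_iUnion (fun v : Iio w => (f v).1) ⟨v, hv⟩
    have hmono : ∀ u v, u ≤ v → v < w → (f u).1 ⊆ (f v).1 := by
      intro u v huv hv
      rcases huv.lt_or_eq with h | rfl
      · exact (hf v hv).1 u h
      · exact subset_rfl
    have hind : IND F₀ J₀ :=
      ind_iUnion w (fun v => (f v).1) (fun v => (f v).2) hmono (fun v hv => (hf v hv).2.1)
    have hinv : Inv (EE w) F₀ := by
      intro n x y G hxy hx
      obtain ⟨v, hv⟩ := Set.mem_iUnion.1 hx
      refine Set.mem_iUnion.2 ⟨v, ?_⟩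
      exact (hf v v.2).2.2.1 n x y G (fun a => EE_mono (le_of_lt v.2) (hxy a)) hv
    have hsmall : Small (kap w) F₀ :=
      small_union (kap w) (le_kap w) (le_max_left _ _) (fun v : Iio w => (f v).1)
        (fun v => small_mono (kap_mono (le_of_lt v.2)) (hf v v.2).2.2.2.1)
    have hJ : #J₀ ≤ kap w := by
      refine (Cardinal.mk_iUnion_le _).trans ?_
      have h1 : #(Iio w) ≤ kap w := le_max_left _ _
      have h2 : (⨆ v : Iio w, #((f v).2)) ≤ kap w := by
        refine ciSup_le' ?_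
        intro v
        exact ((hf v v.2).2.2.2.2.1).trans (kap_mono (le_of_lt v.2))
      calc #(Iio w) * (⨆ v : Iio w, #((f v).2)) ≤ kap w * kap w := mul_le_mul' h1 h2
        _ = kap w := Cardinal.mul_eq_self (le_kap w)
    have triv : Goal w F₀ F₀ (req w) → ∃ a, P w f a := fun hG =>
      ⟨(F₀, J₀), hsub, hind, hinv, hsmall, hJ, hG⟩
    haveI : Infinite KK := KK_infinite
    cases hr : req w with
    | dec n Z =>
      obtain ⟨F', J', h1, h2, h3, h4, h5, h6, h7⟩ := decision (EE_equiv w) (EE_infinite w) (kap w)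
        (le_kap w) F₀ J₀ hind hinv hsmall hJ n Z
      refine ⟨(F', J'), fun v hv => (hsub v hv).trans h1, h3, h4, h5, h6, ?_⟩
      rw [hr]
      exact h7
    | ok n U =>
      by_cases hU : Antitone U ∧ U 0 = Set.univ ∧ ∀ q, ∃ j, q ∉ U j
      · obtain ⟨F', J', h1, h2, h3, h4, h5, h6, h7⟩ := ok_step (EE_equiv w) (kap w)
          (le_kap w) (kap_lt w) F₀ J₀ hind hinv hsmall hJ n U hU.1 hU.2.1 hU.2.2
        refine ⟨(F', J'), fun v hv => (hsub v hv).trans h1, h3, h4, h5, h6, ?_⟩
        rw [hr]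
        exact fun _ _ _ => h7
      · apply triv
        rw [hr]
        intro a b c
        exact (hU ⟨a, b, c⟩).elim
    | rk n g v₀ v₁ =>
      by_cases hv : (∀ v ∈ v₀, v < w) ∧ (∀ v ∈ v₁, v < w)
      · have hK : ∀ x y, EE w x y → x ∈ Cyl v₀ v₁ → y ∈ Cyl v₀ v₁ := by
          intro x y hxy hx
          refine ⟨fun v hvv => ?_, fun v hvv => ?_⟩
          · rw [← hxy v (hv.1 v hvv)]
            exact hx.1 v hvv
          · rw [← hxy v (hv.2 v hvv)]
            exact hx.2 v hvv
        obtain ⟨F', J', h1, h2, h3, h4, h5, h6, h7⟩ := rk_step (EE_equiv w) (EE_infinite w)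
          (kap w) (le_kap w) (kap_lt w) F₀ J₀ hind hinv hsmall hJ (Cyl v₀ v₁) hK n g
        refine ⟨(F', J'), fun v hv => (hsub v hv).trans h1, h3, h4, h5, h6, ?_⟩
        rw [hr]
        exact fun _ _ => h7
      · apply triv
        rw [hr]
        intro a b
        exact (hv ⟨a, b⟩).elim
  obtain ⟨f, hf⟩ := transfinite P hP hex
  refine ⟨fun w => (f w).1, fun w => (f w).2, ?_, fun w => (hf w).2.1, fun w => (hf w).2.2.2.2.2⟩
  intro v w hvw
  rcases hvw.lt_or_eq with h | rfl
  · exact (hf w).1 v h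
  · exact subset_rfl

end Pool.Agent.Lib_MP_6d359a_lc
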