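import Pool.Agent.Lib_MP_6d359a_lc.WeakP

namespace Pool.Agent.Lib_MP_6d359a_lc

open Set Cardinal

/-- Rudin-Keisler preorder -/
def RKle (u v : Ultrafilter ℕ) : Prop := ∃ f : ℕ → ℕ, u = v.map f

/-- `X` is `u`-compact: every sequence has a `u`-limit -/
def UCompact (u : Ultrafilter ℕ) (X : Type) [TopologicalSpace X] : Prop :=
  ∀ f : ℕ → X, ∃ x : X, Filter.Tendsto f (u : Filter ℕ) (nhds x)

/-- Comfort preorder (for Tychonoff spaces; a larger relation than the one for all spaces) -/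
def Cle (u v : Ultrafilter ℕ) : Prop :=
  ∀ (X : Type) [TopologicalSpace X] [T35Space X], UCompact v X → UCompact u X

theorem cle_of_rkle {u v : Ultrafilter ℕ} (h : RKle u v) : Cle u v := by
  obtain ⟨f, rfl⟩ := h
  intro X _ _ hX g
  obtain ⟨x, hx⟩ := hX (fun n => g (f n))
  refine ⟨x, ?_⟩
  rw [Ultrafilter.coe_map, Filter.tendsto_map'_iff]
  exact hx

/-- a set of ultrafilters containing the principal ones and closed under `v`-limits -/
def ComfortCl (v : Ultrafilter ℕ) (S : Set (Ultrafilter ℕ)) : Prop :=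
  (∀ n : ℕ, (pure n : Ultrafilter ℕ) ∈ S) ∧
    ∀ f : ℕ → Ultrafilter ℕ, (∀ n, f n ∈ S) →
      ∀ x, Filter.Tendsto f (v : Filter ℕ) (nhds x) → x ∈ S

theorem comfort_exists_lim (v : Ultrafilter ℕ) (f : ℕ → Ultrafilter ℕ) :
    ∃ x, Filter.Tendsto f (v : Filter ℕ) (nhds x) := by
  obtain ⟨x, -, hx⟩ := (isCompact_univ (X := Ultrafilter ℕ)).ultrafilter_le_nhds (v.map f)
    (by simp)
  exact ⟨x, hx⟩

theorem comfort_tendsto_pure_map (v : Ultrafilter ℕ) (g : ℕ → ℕ) :
    Filter.Tendsto (fun n => (pure (g n) : Ultrafilter ℕ)) (v : Filter ℕ) (nhds (v.map g)) := by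
  have h := ultrafilter_converges_iff (u := (v.map g).map (pure : ℕ → Ultrafilter ℕ))
    (x := v.map g)
  have h2 := Filter.tendsto_map'_iff (f := (pure : ℕ → Ultrafilter ℕ)) (g := g)
    (x := (v : Filter ℕ)) (y := nhds (v.map g))
  exact h2.1 (Ultrafilter.tendsto_pure_self (v.map g))

theorem rkle_of_cle {u v : Ultrafilter ℕ} (hu : WeakPPoint u) (h : Cle u v) : RKle u v := by
  by_contra hRK
  set X : Set (Ultrafilter ℕ) := ⋂₀ {S | ComfortCl v S} with hXdef
  have hX : ComfortCl v X := by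
    refine ⟨fun n => ?_, fun f hf x hx => ?_⟩
    · rw [hXdef, Set.mem_sInter]
      exact fun S hS => hS.1 n
    · rw [hXdef, Set.mem_sInter]
      intro S hS
      exact hS.2 f (fun n => (Set.mem_sInter.1 (hf n)) S hS) x hx
  have hvc : UCompact v X := by
    intro f
    obtain ⟨x, hx⟩ := comfort_exists_lim v (fun n => (f n : Ultrafilter ℕ))
    have hxX : x ∈ X := hX.2 _ (fun n => (f n).2) x hx
    exact ⟨⟨x, hxX⟩, tendsto_subtype_rng.2 hx⟩
  have huc : UCompact u X := h X hvc
  have huX : u ∈ X := by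
    obtain ⟨x, hx⟩ := huc (fun n => ⟨pure n, hX.1 n⟩)
    have h1 : Filter.Tendsto (fun n : ℕ => (pure n : Ultrafilter ℕ)) (u : Filter ℕ)
        (nhds (x : Ultrafilter ℕ)) := tendsto_subtype_rng.1 hx
    have h2 := Ultrafilter.tendsto_pure_self u
    have h3 : (x : Ultrafilter ℕ) = u := tendsto_nhds_unique h1 h2
    rw [← h3]
    exact x.2
  have hS : ComfortCl v (X \ {u}) := by
    refine ⟨fun n => ⟨hX.1 n, fun hn => hu.1 n (Set.mem_singleton_iff.1 hn).symm⟩,
      fun f hf x hx => ⟨hX.2 f (fun n => (hf n).1) x hx, fun hxu => hRK ?_⟩⟩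
    rw [Set.mem_singleton_iff] at hxu
    subst hxu
    set D : Set (Ultrafilter ℕ) := {d | NonPrincipal d ∧ ∃ n, f n = d} with hD
    have hDc : D.Countable := by
      refine (Set.countable_range f).mono ?_
      rintro d ⟨-, n, hn⟩
      exact ⟨n, hn⟩
    have hcl := hu.2 D hDc (by
      rintro d ⟨hd, n, rfl⟩
      exact ⟨hd, fun hh => (hf n).2 (Set.mem_singleton_iff.2 hh)⟩)
    have hev : ∀ᶠ n in (v : Filter ℕ), f n ∈ (closure D)ᶜ :=
      hx.eventually (isClosed_closure.isOpen_compl.mem_nhds hcl)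
    classical
    let g : ℕ → ℕ := fun n => if hn : ∃ m : ℕ, f n = pure m then hn.choose else 0
    have hev2 : ∀ᶠ n in (v : Filter ℕ), f n = pure (g n) := by
      filter_upwards [hev] with n hn
      have hnot : f n ∉ D := fun hh => hn (subset_closure hh)
      have hex : ∃ m : ℕ, f n = pure m := by
        by_contra hcon
        push Not at hcon
        exact hnot ⟨hcon, n, rfl⟩
      simp only [g, dif_pos hex]
      exact hex.choose_spec
    have h1 : Filter.Tendsto (fun n => (pure (g n) : Ultrafilter ℕ)) (v : Filter ℕ) (nhds x) :=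
      hx.congr' hev2
    exact ⟨g, tendsto_nhds_unique h1 (comfort_tendsto_pure_map v g)⟩
  have := (Set.mem_sInter.1 huX) _ hS
  exact this.2 rfl

end Pool.Agent.Lib_MP_6d359a_lc
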