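import Pool.Agent.Lib_MP_6d359a_lc.Defs

namespace Pool.Agent.Lib_MP_6d359a_lc

open Set Cardinal

/-- Partite Ramsey theorem for finitely many colours. -/
theorem ramsey_colours (n : ℕ) : ∀ (q : ℕ) (C : Type) [Fintype C], ∃ Q : ℕ,
    ∀ χ : (Fin n → Fin Q) → C, ∃ (J : Fin n → Fin q → Fin Q) (c : C),
      (∀ a, Function.Injective (J a)) ∧ ∀ j : Fin n → Fin q, χ (fun a => J a (j a)) = c := by
  classical
  induction n with
  | zero =>
    intro q C _
    exact ⟨0, fun χ => ⟨fun a => a.elim0, χ (fun a => a.elim0), fun a => a.elim0,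
      fun j => congrArg χ (Subsingleton.elim _ _)⟩⟩
  | succ n ih =>
    intro q C _
    obtain ⟨M, hM⟩ : ∃ M, M = Fintype.card C * q + 1 := ⟨_, rfl⟩
    obtain ⟨Q', hQ'⟩ := ih q (Fin M → C)
    refine ⟨Q' + M, fun χ => ?_⟩
    obtain ⟨e1, he1⟩ : ∃ e1 : Fin Q' → Fin (Q' + M), Function.Injective e1 :=
      ⟨Fin.castLE (Nat.le_add_right _ _), Fin.castLE_injective _⟩
    obtain ⟨e2, he2⟩ : ∃ e2 : Fin M → Fin (Q' + M), Function.Injective e2 :=
      ⟨Fin.castLE (Nat.le_add_left _ _), Fin.castLE_injective _⟩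
    obtain ⟨J', c', hJ', hc'⟩ := hQ' (fun x i => χ (Fin.cons (e2 i) (fun a => e1 (x a))))
    have : Nonempty C := ⟨χ (fun _ => e2 ⟨0, by omega⟩)⟩
    obtain ⟨c, hc⟩ := Fintype.exists_le_card_fiber_of_mul_le_card c' (n := q)
      (by rw [Fintype.card_fin]; omega)
    have hemb : Nonempty (Fin q ↪ {i : Fin M // c' i = c}) := by
      apply Function.Embedding.nonempty_of_card_le
      rw [Fintype.card_fin, Fintype.card_subtype]
      exact hc
    obtain ⟨g⟩ := hemb
    refine ⟨Fin.cons (fun i => e2 (g i).1) (fun a i => e1 (J' a i)), c, ?_, ?_⟩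
    · intro a
      refine Fin.cases ?_ (fun a => ?_) a
      · intro x y hxy
        simp only [Fin.cons_zero] at hxy
        exact g.injective (Subtype.ext (he2 hxy))
      · intro x y hxy
        simp only [Fin.cons_succ] at hxy
        exact hJ' a (he1 hxy)
    · intro j
      have h1 : (fun a => (Fin.cons (fun i => e2 (g i).1) (fun a i => e1 (J' a i)) :
          Fin (n + 1) → Fin q → Fin (Q' + M)) a (j a)) =
          Fin.cons (e2 (g (j 0)).1) (fun a => e1 (J' a (j a.succ))) := by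
        funext a
        refine Fin.cases ?_ (fun a => ?_) a
        · simp only [Fin.cons_zero]
        · simp only [Fin.cons_succ]
      rw [h1]
      have h2 := congrFun (hc' (fun a => j a.succ)) (g (j 0)).1
      rw [(g (j 0)).2] at h2
      exact h2

theorem ramsey (n q : ℕ) : ∃ Q : ℕ, ∀ χ : (Fin n → Fin Q) → Prop,
    ∃ J : Fin n → Fin q → Fin Q, (∀ a, Function.Injective (J a)) ∧
      ((∀ j : Fin n → Fin q, χ (fun a => J a (j a))) ∨
        (∀ j : Fin n → Fin q, ¬ χ (fun a => J a (j a)))) := by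
  classical
  obtain ⟨Q, hQ⟩ := ramsey_colours n q Bool
  refine ⟨Q, fun χ => ?_⟩
  obtain ⟨J, c, hJ, hc⟩ := hQ (fun x => decide (χ x))
  refine ⟨J, hJ, ?_⟩
  cases c with
  | true => exact Or.inl fun j => of_decide_eq_true (hc j)
  | false => exact Or.inr fun j => of_decide_eq_false (hc j)

end Pool.Agent.Lib_MP_6d359a_lc
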