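import Pool.Agent.Lib_MP_6d359a_lc.Base
import Pool.Agent.Lib_MP_6d359a_lc.Pull
import Pool.Agent.Lib_MP_6d359a_lc.Abs
import Pool.Agent.Lib_MP_6d359a_lc.Ramsey

namespace Pool.Agent.Lib_MP_6d359a_lc

open Set Cardinal

theorem dadd_inv {K : Type} {E : K → K → Prop} (𝓕 : Fam) (n : ℕ) (Z : Set (Om n))
    (D : ∀ γ : 𝓕.Γ, Set (Fin (𝓕.ar γ) → K))
    (hD : ∀ γ x y, (∀ a, E (x a) (y a)) → x ∈ D γ → y ∈ D γ)
    (B : Bool → Set (Fin n → K)) (hB : ∀ b x y, (∀ a, E (x a) (y a)) → x ∈ B b → y ∈ B b)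
    (γ : (𝓕.add n Z).Γ) (x y : Fin ((𝓕.add n Z).ar γ) → K)
    (h : ∀ a, E (x a) (y a)) (hx : x ∈ Dadd (Z := Z) D B γ) : y ∈ Dadd (Z := Z) D B γ := by
  rcases γ with γ | b
  · exact hD γ x y h hx
  · exact hB b x y h hx

theorem skel_bound (𝓕 : Fam) (θ : Skel 𝓕 ℕ) : ∃ q : ℕ, ∀ l ∈ θ, ∀ a, l.2 a < q := by
  induction θ with
  | nil => exact ⟨0, by simp⟩
  | cons e θ ih =>
    obtain ⟨q, hq⟩ := ih
    obtain ⟨q', hq'⟩ : ∃ q' : ℕ, ∀ a, e.2 a < q' := by
      obtain ⟨M, hM⟩ := (Set.finite_range e.2).bddAbove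
      exact ⟨M + 1, fun a => Nat.lt_succ_of_le (hM ⟨a, rfl⟩)⟩
    refine ⟨max q q', fun l hl a => ?_⟩
    rcases List.mem_cons.1 hl with h | h
    · subst h
      exact lt_of_lt_of_le (hq' a) (le_max_right _ _)
    · exact lt_of_lt_of_le (hq l h a) (le_max_left _ _)

/-- The relabelling of the positions below `q` attached to a box. -/
theorem exists_tau {K : Type} [Infinite K] {E : K → K → Prop} (hE : Equivalence E)
    {n : ℕ} (x : Fin n → K) (hx : ∀ a b, a ≠ b → ¬ E (x a) (x b))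
    (c : Fin n → ℕ → K) (hc : ∀ a, Function.Injective (c a)) (hcE : ∀ a j, E (x a) (c a j))
    {q Q : ℕ} (Jb : Fin n → Fin q → Fin Q) (hJb : ∀ a, Function.Injective (Jb a))
    (h : ℕ → K) (hh : Function.Injective h) :
    ∃ τ : ℕ → K, Function.Injective τ ∧ (∀ m < q, E (h m) (τ m)) ∧
      ∀ (m : ℕ) (hm : m < q) (a : Fin n), E (x a) (h m) → τ m = c a (Jb a ⟨m, hm⟩) := by
  classical
  let τ₀ : ℕ → K := fun m =>
    if hm : m < q then
      (if ex : ∃ a, E (x a) (h m) then c ex.choose (Jb ex.choose ⟨m, hm⟩) else h m)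
    else h m
  have huniq : ∀ (a a' : Fin n) (y : K), E (x a) y → E (x a') y → a = a' := by
    intro a a' y h1 h2
    by_contra hne
    exact hx a a' hne (hE.trans h1 (hE.symm h2))
  have h1 : ∀ (m : ℕ) (hm : m < q) (a : Fin n), E (x a) (h m) →
      τ₀ m = c a (Jb a ⟨m, hm⟩) := by
    intro m hm a ha
    have ex : ∃ a, E (x a) (h m) := ⟨a, ha⟩
    have : ex.choose = a := huniq _ _ _ ex.choose_spec ha
    simp only [τ₀, dif_pos hm, dif_pos ex, this]
  have h2 : ∀ (m : ℕ), m < q → (¬ ∃ a, E (x a) (h m)) → τ₀ m = h m := by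
    intro m hm ex
    simp only [τ₀, dif_pos hm, dif_neg ex]
  have hinj : Set.InjOn τ₀ ((Finset.range q : Finset ℕ) : Set ℕ) := by
    intro m hm m' hm' hmm
    have hm : m < q := by simpa using hm
    have hm' : m' < q := by simpa using hm'
    by_cases ex : ∃ a, E (x a) (h m)
    · obtain ⟨a, ha⟩ := ex
      by_cases ex' : ∃ a, E (x a) (h m')
      · obtain ⟨a', ha'⟩ := ex'
        rw [h1 m hm a ha, h1 m' hm' a' ha'] at hmm
        have haa : a = a' := huniq a a' (c a' (Jb a' ⟨m', hm'⟩)) (by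
          rw [← hmm]; exact hcE _ _) (hcE _ _)
        subst haa
        have := hJb a (Fin.ext (hc a hmm))
        simpa using this
      · exfalso
        rw [h1 m hm a ha, h2 m' hm' ex'] at hmm
        exact ex' ⟨a, by rw [← hmm]; exact hcE _ _⟩
    · by_cases ex' : ∃ a, E (x a) (h m')
      · obtain ⟨a', ha'⟩ := ex'
        exfalso
        rw [h2 m hm ex, h1 m' hm' a' ha'] at hmm
        exact ex ⟨a', by rw [hmm]; exact hcE _ _⟩
      · rw [h2 m hm ex, h2 m' hm' ex'] at hmm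
        exact hh hmm
  obtain ⟨τ, hτ, hτ'⟩ := extend_inj (Finset.range q) τ₀ hinj
  refine ⟨τ, hτ, ?_, ?_⟩
  · intro m hm
    rw [hτ' m (by simpa using hm)]
    by_cases ex : ∃ a, E (x a) (h m)
    · obtain ⟨a, ha⟩ := ex
      rw [h1 m hm a ha]
      exact hE.trans (hE.symm ha) (hcE _ _)
    · rw [h2 m hm ex]
      exact hE.refl _
  · intro m hm a ha
    rw [hτ' m (by simpa using hm)]
    exact h1 m hm a ha

theorem core {K : Type} [Infinite K] {E : K → K → Prop} (hE : Equivalence E)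
    (hinf : ∀ x, {y | E x y}.Infinite) (𝓕 : Fam) (n : ℕ) (Z : Set (Om n))
    (D : ∀ γ : 𝓕.Γ, Set (Fin (𝓕.ar γ) → K))
    (hD : ∀ γ x y, (∀ a, E (x a) (y a)) → x ∈ D γ → y ∈ D γ)
    (B : Bool → Set (Fin n → K)) (hB : ∀ b x y, (∀ a, E (x a) (y a)) → x ∈ B b → y ∈ B b)
    (J : Set (Set ℕ)) (hind : IND (rulesOf (𝓕.add n Z) (Dadd D B)) J)
    (hmw : MW (𝓕.add n Z) J) (x : Fin n → K) (hx : ∀ a b, a ≠ b → ¬ E (x a) (x b)) :
    ∃ b : Bool, IND (rulesOf (𝓕.add n Z)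
      (Dadd D (fun b' => B b' ∪ {y | b' = b ∧ ∀ a, E (x a) (y a)}))) J := by
  classical
  by_contra hcon
  push Not at hcon
  have H := fun b => exists_bad (𝓕.add n Z) _ J (hcon b)
  choose h θ α₀ C₀ hh hdom hdisj hbad using H
  -- common bound for positions
  obtain ⟨q, hq⟩ : ∃ q : ℕ, ∀ b, ∀ l ∈ θ b, ∀ a, l.2 a < q := by
    obtain ⟨q1, h1⟩ := skel_bound _ (θ true)
    obtain ⟨q2, h2⟩ := skel_bound _ (θ false)
    refine ⟨max q1 q2, fun b l hl a => ?_⟩
    cases b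
    · exact lt_of_lt_of_le (h2 l hl a) (le_max_right _ _)
    · exact lt_of_lt_of_le (h1 l hl a) (le_max_left _ _)
  obtain ⟨Q, hQ⟩ := ramsey n q
  -- copies
  let c : Fin n → ℕ → K := fun a j => ((hinf (x a)).natEmbedding _ j : K)
  have hc : ∀ a, Function.Injective (c a) := by
    intro a i j hij
    exact ((hinf (x a)).natEmbedding _).injective (Subtype.ext hij)
  have hcE : ∀ a j, E (x a) (c a j) := fun a j => ((hinf (x a)).natEmbedding _ j).2
  -- the index type of boxes and signs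
  let β : Type := {Jb : Fin n → Fin q → Fin Q // ∀ a, Function.Injective (Jb a)} × Bool
  have hτ := fun u : β => exists_tau hE x hx c hc hcE u.1.1 u.1.2 (h u.2) (hh u.2)
  choose τ hτinj hτE hτc using hτ
  -- selection of witnesses
  obtain ⟨sel, hsel, hseld⟩ := select (β := β) (X := (ℕ → Set ℕ) × Cond ℕ)
    (fun X => rows X.2) (fun X => rows_finite X.2)
    (fun u => {X | Bad (𝓕.add n Z) (θ u.2) X.1 X.2}) J (by
      intro u r hr
      obtain ⟨α, C, h1, h2⟩ := hmw (θ u.2) ⟨α₀ u.2, C₀ u.2, hdisj u.2, hbad u.2⟩ r hr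
      exact ⟨(α, C), h2, h1⟩)
  have hselbad : ∀ u, Bad (𝓕.add n Z) (θ u.2) (sel u).1 (sel u).2 := fun u => (hsel u).1
  choose k₀ hk₀ using hselbad
  obtain ⟨N, hN⟩ : ∃ N : ℕ, ∀ u, k₀ u ≤ N := by
    obtain ⟨M, hM⟩ := (Set.finite_range k₀).bddAbove
    exact ⟨M, fun u => hM ⟨u, rfl⟩⟩
  let _ : Fintype β := Fintype.ofFinite β
  -- the finite set of rules
  let rl : (u : β) → (l : Fin (θ u.2).length) → Rule K := fun u l =>
    ⟨(𝓕.add n Z).ar ((θ u.2)[l]).1, (fun a => τ u (((θ u.2)[l]).2 a)),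
      (𝓕.add n Z).G ((θ u.2)[l]).1 ((sel u).1 l)⟩
  let old : (u : β) → (l : Fin (θ u.2).length) → Prop := fun u l =>
    (fun a => h u.2 (((θ u.2)[l]).2 a)) ∈ Dadd (Z := Z) D B ((θ u.2)[l]).1
  let g : Set (Rule K) := ⋃ u : β, ⋃ l : Fin (θ u.2).length, {r | old u l ∧ r = rl u l}
  have hgfin : g.Finite := by
    refine Set.finite_iUnion fun u => Set.finite_iUnion fun l => ?_
    exact (Set.finite_singleton (rl u l)).subset (fun r hr => hr.2)
  have hgsub : g ⊆ rulesOf (𝓕.add n Z) (Dadd D B) := by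
    intro r hr
    obtain ⟨u, hr⟩ := Set.mem_iUnion.1 hr
    obtain ⟨l, hr⟩ := Set.mem_iUnion.1 hr
    obtain ⟨ho, rfl⟩ := hr
    refine ⟨_, _, _, ?_, rfl⟩
    refine dadd_inv 𝓕 n Z D hD B hB _ _ _ (fun a => ?_) ho
    exact hτE u _ (hq _ _ (List.getElem_mem _) a)
  let Cs : Cond K := Finset.univ.biUnion (fun u : β => mapC (τ u) (sel u).2)
  have hsub : ∀ u, mapC (τ u) (sel u).2 ⊆ Cs := fun u =>
    Finset.subset_biUnion_of_mem (fun u : β => mapC (τ u) (sel u).2) (Finset.mem_univ u)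
  have hCsJ : Disjoint (rows Cs) J := by
    rw [Set.disjoint_left]
    rintro R ⟨t, ht, rfl⟩ hR
    obtain ⟨u, -, hu⟩ := Finset.mem_biUnion.1 ht
    have h1 : t.2.1 ∈ rows (sel u).2 := by
      rw [← rows_mapC (τ u) (sel u).2]
      exact ⟨t, hu, rfl⟩
    exact Set.disjoint_left.1 (hsel u).2 h1 hR
  obtain ⟨k, hk, p, hpg, hpC⟩ := hind g hgfin hgsub Cs hCsJ N
  have hCu : ∀ u, CSat (sel u).2 k (fun m => p (τ u m)) := by
    intro u
    rw [← csat_mapC (hτinj u)]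
    refine csat_mono (hsub u) ?_ hpC
    intro s hs hsr
    obtain ⟨v, -, hv⟩ := Finset.mem_biUnion.1 hs
    by_cases huv : v = u
    · subst huv; exact hv
    · exfalso
      have h1 : s.2.1 ∈ rows (sel v).2 := by
        rw [← rows_mapC (τ v) (sel v).2]
        exact ⟨s, hv, rfl⟩
      rw [rows_mapC] at hsr
      exact Set.disjoint_left.1 (hseld v u huv) h1 hsr
  -- colouring
  obtain ⟨Jb, hJb, hcol⟩ := hQ (fun j => (⟨k, fun a => p (c a (j a))⟩ : Om n) ∈ Z)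
  -- final contradiction for a sign
  have fin : ∀ b : Bool, (∀ j : Fin n → Fin q, (⟨k, fun a => p (c a (Jb a (j a)))⟩ : Om n) ∈
      (𝓕.add n Z).G (Sum.inr b) ∅) → False := by
    intro b hb
    let u : β := (⟨Jb, hJb⟩, b)
    refine hk₀ u k (le_trans (hN u) hk) (fun m => p (τ u m)) ⟨?_, hCu u⟩
    intro l hl
    by_cases ho : old u ⟨l, hl⟩
    · have := hpg (rl u ⟨l, hl⟩) (Set.mem_iUnion.2 ⟨u, Set.mem_iUnion.2 ⟨⟨l, hl⟩, ho, rfl⟩⟩)
      exact this
    · have hd := hdom b _ (List.getElem_mem (l := θ b) hl)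
      have hq' := hq b _ (List.getElem_mem (l := θ b) hl)
      have ho' : ¬ (fun a => h b (((θ b)[l]).2 a)) ∈ Dadd (Z := Z) D B ((θ b)[l]).1 := ho
      change (⟨k, fun a => p (τ u (((θ b)[l]).2 a))⟩ : Om _) ∈
        (𝓕.add n Z).G ((θ b)[l]).1 ((sel u).1 l)
      generalize (sel u).1 l = α₁
      generalize (θ b)[l] = e at hd hq' ho' ⊢
      obtain ⟨γ | b', x'⟩ := e
      · exact absurd hd ho'
      · rcases hd with hd | ⟨hbb, hd⟩
        · exact absurd hd ho'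
        · subst hbb
          have h1 : (⟨k, fun a => p (τ u (x' a))⟩ : Om n) =
              ⟨k, fun a => p (c a (Jb a ⟨x' a, hq' a⟩))⟩ := by
            congr 1
            funext a
            exact congrArg p (hτc u (x' a) (hq' a) a (hd a))
          have h2 := hb (fun a => ⟨x' a, hq' a⟩)
          have h3 : (⟨k, fun a => p (τ u (x' a))⟩ : Om n) ∈ (𝓕.add n Z).G (Sum.inr b') ∅ :=
            h1 ▸ h2
          cases b'
          · exact h3
          · exact h3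
  rcases hcol with hcol | hcol
  · exact fin true hcol
  · exact fin false hcol

end Pool.Agent.Lib_MP_6d359a_lc
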