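import Pool.Agent.Lib_MP_6d359a_lc.Core
import Pool.Agent.Lib_MP_6d359a_lc.SmallU

namespace Pool.Agent.Lib_MP_6d359a_lc

open Set Cardinal

/-- Slices of a set of decided tuples. -/
def decSl {K : Type} {n : ℕ} (A : Set ((Fin n → K) × Bool)) : Bool → Set (Fin n → K) :=
  fun b => {x | (x, b) ∈ A}

theorem dec_chain {K : Type} {𝓕 : Fam} {n : ℕ} {Z : Set (Om n)}
    (D : ∀ γ : 𝓕.Γ, Set (Fin (𝓕.ar γ) → K)) (c : Set (Set ((Fin n → K) × Bool)))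
    (hc : IsChain (· ⊆ ·) c) (hne : c.Nonempty) (g : Set (Rule K)) (hg : g.Finite) :
    g ⊆ rulesOf (𝓕.add n Z) (Dadd D (decSl (⋃₀ c))) →
      ∃ s ∈ c, g ⊆ rulesOf (𝓕.add n Z) (Dadd D (decSl s)) := by
  have mono : ∀ s t : Set ((Fin n → K) × Bool), s ⊆ t →
      rulesOf (𝓕.add n Z) (Dadd D (decSl s)) ⊆ rulesOf (𝓕.add n Z) (Dadd D (decSl t)) := by
    rintro s t hst r ⟨γ, α, x, hx, rfl⟩
    refine ⟨γ, α, x, ?_, rfl⟩
    rcases γ with γ | b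
    · exact hx
    · exact hst hx
  refine Set.Finite.induction_on g hg ?_ ?_
  · intro _
    obtain ⟨s, hs⟩ := hne
    exact ⟨s, hs, Set.empty_subset _⟩
  · intro r g _ _ ih hsub
    obtain ⟨s, hs, hgs⟩ := ih ((Set.subset_insert _ _).trans hsub)
    obtain ⟨γ, α, x, hx, hr⟩ := hsub (Set.mem_insert _ _)
    have : ∃ t ∈ c, r ∈ rulesOf (𝓕.add n Z) (Dadd D (decSl t)) := by
      rcases γ with γ | b
      · exact ⟨s, hs, Sum.inl γ, α, x, hx, hr⟩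
      · obtain ⟨t, ht, hxt⟩ := hx
        exact ⟨t, ht, Sum.inr b, α, x, hxt, hr⟩
    obtain ⟨t, ht, hrt⟩ := this
    rcases hc.total hs ht with h | h
    · exact ⟨t, ht, Set.insert_subset hrt (hgs.trans (mono _ _ h))⟩
    · exact ⟨s, hs, Set.insert_subset (mono _ _ h hrt) hgs⟩

theorem decision {K : Type} [Infinite K] {E : K → K → Prop} (hE : Equivalence E)
    (hinf : ∀ x, {y | E x y}.Infinite) (κ : Cardinal.{0}) (hκ : ℵ₀ ≤ κ)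
    (F : Set (Rule K)) (J : Set (Set ℕ)) (hI : IND F J) (hInv : Inv E F) (hS : Small κ F)
    (hJ : #J ≤ κ) (n : ℕ) (Z : Set (Om n)) :
    ∃ (F' : Set (Rule K)) (J' : Set (Set ℕ)), F ⊆ F' ∧ J ⊆ J' ∧ IND F' J' ∧ Inv E F' ∧
      Small κ F' ∧ #J' ≤ κ ∧ ∀ x : Fin n → K, (∀ a b, a ≠ b → ¬ E (x a) (x b)) →
        (⟨n, x, Z⟩ : Rule K) ∈ F' ∨ (⟨n, x, Zᶜ⟩ : Rule K) ∈ F' := by
  obtain ⟨𝓕, D, hΓ, rfl, hD⟩ := exists_inv_dom hInv hS
  have hΓ' : #(𝓕.add n Z).Γ ≤ κ := by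
    change #(𝓕.Γ ⊕ Bool) ≤ κ
    rw [mk_sum, lift_id, lift_id]
    exact add_le_of_le hκ hΓ ((lt_aleph0_of_finite Bool).le.trans hκ)
  obtain ⟨T, hT, hmw⟩ := exists_mw (𝓕.add n Z) κ hκ hΓ' J
  have hbase : rulesOf (𝓕.add n Z) (Dadd D (decSl ∅)) ⊆ rulesOf 𝓕 D := by
    rintro r ⟨γ, α, x, hx, rfl⟩
    rcases γ with γ | b
    · exact ⟨γ, α, x, hx, rfl⟩
    · exact absurd hx (Set.notMem_empty _)
  obtain ⟨A, hA⟩ := zorn_subset {A : Set ((Fin n → K) × Bool) |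
      (∀ b x y, (∀ a, E (x a) (y a)) → (x, b) ∈ A → (y, b) ∈ A) ∧
        IND (rulesOf (𝓕.add n Z) (Dadd D (decSl A))) (J ∪ T)} (by
    intro c hcS hc
    rcases c.eq_empty_or_nonempty with rfl | hne
    · refine ⟨∅, ⟨fun b x y _ h => absurd h (Set.notMem_empty _), ?_⟩, fun s hs => absurd hs (Set.notMem_empty _)⟩
      exact hI.mono hbase Set.subset_union_left
    · refine ⟨⋃₀ c, ⟨?_, ?_⟩, fun s hs => Set.subset_sUnion_of_mem hs⟩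
      · rintro b x y hxy ⟨s, hs, hx⟩
        exact ⟨s, hs, (hcS hs).1 b x y hxy hx⟩
      · intro g hg hsub C hC k₀
        obtain ⟨s, hs, hgs⟩ := dec_chain D c hc hne g hg hsub
        exact (hcS hs).2 g hg hgs C hC k₀)
  obtain ⟨⟨hAinv, hAind⟩, hmax⟩ := hA
  refine ⟨rulesOf (𝓕.add n Z) (Dadd D (decSl A)), J ∪ T, ?_, Set.subset_union_left, hAind, ?_,
    ⟨𝓕.add n Z, _, hΓ', rfl⟩, (mk_union_le _ _).trans (add_le_of_le hκ hJ hT), ?_⟩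
  · rintro r ⟨γ, α, x, hx, rfl⟩
    exact ⟨Sum.inl γ, α, x, hx, rfl⟩
  · rintro m x y G hxy ⟨γ, α, x', hx', heq⟩
    obtain ⟨hm, h2⟩ := Sigma.mk.inj_iff.mp heq
    subst hm
    have h3 := eq_of_heq h2
    have h4 := congrArg Prod.fst h3
    have h5 := congrArg Prod.snd h3
    dsimp only at h4 h5
    subst h4 h5
    refine ⟨γ, α, y, ?_, rfl⟩
    rcases γ with γ | b
    · exact hD γ x y hxy hx'
    · exact hAinv b x y hxy hx'
  · intro x hx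
    obtain ⟨b, hb⟩ := core hE hinf 𝓕 n Z D hD (decSl A) (fun b x y h1 h2 => hAinv b x y h1 h2)
      (J ∪ T) hAind hmw x hx
    have hsub : A ∪ {q | q.2 = b ∧ ∀ a, E (x a) (q.1 a)} ⊆ A := by
      refine hmax ⟨?_, ?_⟩ Set.subset_union_left
      · rintro b' y z hyz (h | ⟨h1, h2⟩)
        · exact Or.inl (hAinv b' y z hyz h)
        · exact Or.inr ⟨h1, fun a => hE.trans (h2 a) (hyz a)⟩
      · exact hb
    have hxb : (x, b) ∈ A := hsub (Or.inr ⟨rfl, fun a => hE.refl _⟩)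
    cases b
    · exact Or.inr ⟨Sum.inr false, ∅, x, hxb, rfl⟩
    · exact Or.inl ⟨Sum.inr true, ∅, x, hxb, rfl⟩

end Pool.Agent.Lib_MP_6d359a_lc
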