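import Mathlib

/-!
Definitions for MP_6d359a_lc: coherent systems of weak P-points.

* `Blk k` is the finite block of level `k`, `Om n` the countable set of `n`-dimensional points.
* rows and columns are subsets of the naturals; `Hit R m Y` is the element of the independent
  linked family with row `R`, level `m`, column `Y`.
* `Cond` conditions, `Rule` rules (a tuple of indices together with a subset of `Om n`),
  `IND F J`: the rules of `F` are independent of all conditions whose rows avoid `J`.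
-/

namespace Pool.Agent.Lib_MP_6d359a_lc

open Set Cardinal

/-- Level `k` block. -/
abbrev Blk (k : ℕ) : Type := Finset (Fin k) → Finset (Finset (Fin k))

open Classical in
/-- Trace of a set of naturals on `Fin k`. -/
noncomputable def res (k : ℕ) (R : Set ℕ) : Finset (Fin k) :=
  Finset.univ.filter (fun i => (i : ℕ) ∈ R)

/-- The countable set on which the `n`-dimensional ultrafilters live. -/
abbrev Om (n : ℕ) : Type := Σ k : ℕ, (Fin n → Blk k)

/-- Row `R`, at most `m` columns, column `Y` is among them. -/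
def Hit (R : Set ℕ) (m : ℕ) (Y : Set ℕ) (k : ℕ) (f : Blk k) : Prop :=
  (f (res k R)).card ≤ m ∧ res k Y ∈ f (res k R)

/-- Conditions: finite sets of triples (index, row, column). -/
abbrev Cond (ι : Type) : Type := Finset (ι × Set ℕ × Set ℕ)

/-- The rows of a condition. -/
def rows {ι : Type} (C : Cond ι) : Set (Set ℕ) := {R | ∃ t ∈ C, t.2.1 = R}

open Classical in
/-- Number of columns which `C` prescribes at index `x` and row `R`. -/
noncomputable def colcard {ι : Type} (C : Cond ι) (x : ι) (R : Set ℕ) : ℕ :=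
  (C.filter (fun s => s.1 = x ∧ s.2.1 = R)).card

/-- `p` satisfies the condition `C`. -/
def CSat {ι : Type} (C : Cond ι) (k : ℕ) (p : ι → Blk k) : Prop :=
  ∀ t ∈ C, Hit t.2.1 (colcard C t.1 t.2.1) t.2.2 k (p t.1)

/-- A rule: arity, tuple of indices, subset of `Om n`. -/
abbrev Rule (ι : Type) : Type := Σ n : ℕ, (Fin n → ι) × Set (Om n)

/-- `p` satisfies the rule `r`. -/
def RSat {ι : Type} (r : Rule ι) (k : ℕ) (p : ι → Blk k) : Prop :=
  (⟨k, fun a => p (r.2.1 a)⟩ : Om r.1) ∈ r.2.2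

/-- Independence of the rules `F` from all conditions with rows outside `J`. -/
def IND {ι : Type} (F : Set (Rule ι)) (J : Set (Set ℕ)) : Prop :=
  ∀ g : Set (Rule ι), g.Finite → g ⊆ F → ∀ C : Cond ι, Disjoint (rows C) J →
    ∀ k₀ : ℕ, ∃ k ≥ k₀, ∃ p : ι → Blk k, (∀ r ∈ g, RSat r k p) ∧ CSat C k p

/-- Invariance of a set of rules under an equivalence relation of indices. -/
def Inv {ι : Type} (E : ι → ι → Prop) (F : Set (Rule ι)) : Prop :=
  ∀ (n : ℕ) (x y : Fin n → ι) (G : Set (Om n)), (∀ a, E (x a) (y a)) →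
    (⟨n, x, G⟩ : Rule ι) ∈ F → (⟨n, y, G⟩ : Rule ι) ∈ F

/-- A family of symbols: each symbol has an arity and, for each column, a subset of `Om n`. -/
structure Fam where
  Γ : Type
  ar : Γ → ℕ
  G : ∀ γ : Γ, Set ℕ → Set (Om (ar γ))

/-- The rules generated by a family of symbols with domains `D`. -/
def rulesOf {ι : Type} (𝓕 : Fam) (D : ∀ γ : 𝓕.Γ, Set (Fin (𝓕.ar γ) → ι)) : Set (Rule ι) :=
  {r | ∃ (γ : 𝓕.Γ) (α : Set ℕ), ∃ x ∈ D γ, r = ⟨𝓕.ar γ, x, 𝓕.G γ α⟩}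

/-- A set of rules is generated by at most `κ` symbols. -/
def Small {ι : Type} (κ : Cardinal.{0}) (F : Set (Rule ι)) : Prop :=
  ∃ (𝓕 : Fam) (D : ∀ γ : 𝓕.Γ, Set (Fin (𝓕.ar γ) → ι)), #𝓕.Γ ≤ κ ∧ F = rulesOf 𝓕 D

/-- Add two symbols of arity `n`, for `Z` and its complement. -/
def Fam.add (𝓕 : Fam) (n : ℕ) (Z : Set (Om n)) : Fam where
  Γ := 𝓕.Γ ⊕ Bool
  ar := Sum.elim 𝓕.ar (fun _ => n)
  G := fun γ => match γ with
    | Sum.inl γ => 𝓕.G γ
    | Sum.inr true => fun _ => Z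
    | Sum.inr false => fun _ => Zᶜ

/-- Domains for `Fam.add`. -/
def Dadd {ι : Type} {𝓕 : Fam} {n : ℕ} {Z : Set (Om n)}
    (D : ∀ γ : 𝓕.Γ, Set (Fin (𝓕.ar γ) → ι)) (B : Bool → Set (Fin n → ι)) :
    ∀ γ : (𝓕.add n Z).Γ, Set (Fin ((𝓕.add n Z).ar γ) → ι) := fun γ => match γ with
    | Sum.inl γ => D γ
    | Sum.inr b => B b

/-- Skeletons: finite lists of symbols with tuples of indices. -/
abbrev Skel (𝓕 : Fam) (ι : Type) : Type := List (Σ γ : 𝓕.Γ, Fin (𝓕.ar γ) → ι)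

/-- `p` satisfies the skeleton `θ` with column parameters `α`. -/
def SSat (𝓕 : Fam) {ι : Type} (θ : Skel 𝓕 ι) (α : ℕ → Set ℕ) (k : ℕ) (p : ι → Blk k) : Prop :=
  ∀ (l : ℕ) (h : l < θ.length),
    (⟨k, fun a => p ((θ[l]).2 a)⟩ : Om (𝓕.ar (θ[l]).1)) ∈ 𝓕.G (θ[l]).1 (α l)

/-- The skeleton together with the condition `C` is contradictory at all large levels. -/
def Bad (𝓕 : Fam) (θ : Skel 𝓕 ℕ) (α : ℕ → Set ℕ) (C : Cond ℕ) : Prop :=
  ∃ k₀ : ℕ, ∀ k ≥ k₀, ∀ p : ℕ → Blk k, ¬ (SSat 𝓕 θ α k p ∧ CSat C k p)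

/-- Many witnesses: a contradictory condition can be moved off every finite set of rows. -/
def MW (𝓕 : Fam) (J : Set (Set ℕ)) : Prop :=
  ∀ θ : Skel 𝓕 ℕ, (∃ (α : ℕ → Set ℕ) (C : Cond ℕ), Disjoint (rows C) J ∧ Bad 𝓕 θ α C) →
    ∀ r : Set (Set ℕ), r.Finite →
      ∃ (α : ℕ → Set ℕ) (C : Cond ℕ), Disjoint (rows C) (J ∪ r) ∧ Bad 𝓕 θ α C

/-- The sets `V α` of the OK step. -/
def VV {n : ℕ} (U : ℕ → Set (Om (n + 1))) (R : Set ℕ) (α : Set ℕ) : Set (Om (n + 1)) :=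
  {q | ∃ j, q ∈ U j ∧ q ∉ U (j + 1) ∧ Hit R j α q.1 (q.2 0)}

/-- One-dimensional hit set. -/
def HS (R Y : Set ℕ) : Set (Om 1) := {q | Hit R 1 Y q.1 (q.2 0)}

/-- points of level at least `k` -/
def Lev (n k : ℕ) : Set (Om n) := {q | k ≤ q.1}

/-- Reindexing of coordinates. -/
def proj {n m : ℕ} (ι : Fin n → Fin m) (q : Om m) : Om n := ⟨q.1, fun a => q.2 (ι a)⟩

/-- The index set of the stages: a well-order of type the continuum. -/
abbrev W : Type := (Cardinal.continuum.{0}).ord.ToType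

/-- The index set of the coordinates. -/
abbrev KK : Type := W → Bool

/-- Agreement below `w`. -/
def EE (w : W) (x y : KK) : Prop := ∀ v < w, x v = y v

/-- Cylinder determined by two finite sets of coordinates. -/
def Cyl (v₀ v₁ : Finset W) : Set KK := {x | (∀ v ∈ v₀, x v = false) ∧ ∀ v ∈ v₁, x v = true}

/-- Requirements. -/
inductive Req : Type
  | dec (n : ℕ) (Z : Set (Om n)) : Req
  | ok (n : ℕ) (U : ℕ → Set (Om (n + 1))) : Req
  | rk (n : ℕ) (f : Om n → Om 1) (v₀ v₁ : Finset W) : Req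

/-- What has to be achieved at stage `w` for a requirement; `F₀` are the rules before the
stage, `F` those after it. -/
def Goal (w : W) (F₀ F : Set (Rule KK)) : Req → Prop
  | .dec n Z => ∀ x : Fin n → KK, (∀ a b, a ≠ b → ¬ EE w (x a) (x b)) →
      (⟨n, x, Z⟩ : Rule KK) ∈ F ∨ (⟨n, x, Zᶜ⟩ : Rule KK) ∈ F
  | .ok n U => Antitone U → U 0 = Set.univ → (∀ q, ∃ j, q ∉ U j) →
      ∃ R : Set ℕ, ∀ x : Fin (n + 1) → KK, (∀ j, (⟨n + 1, x, U j⟩ : Rule KK) ∈ F₀) →
        ∀ α : Set ℕ, (⟨n + 1, x, VV U R α⟩ : Rule KK) ∈ F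
  | .rk n f v₀ v₁ => (∀ v ∈ v₀, v < w) → (∀ v ∈ v₁, v < w) →
      ∃ R Y : Set ℕ, (∀ y ∈ Cyl v₀ v₁, (⟨1, fun _ => y, HS R Y⟩ : Rule KK) ∈ F) ∧
        ∀ x : Fin n → KK, (∀ a, x a ∉ Cyl v₀ v₁) →
          (∀ k, (⟨n, x, f ⁻¹' Lev 1 k⟩ : Rule KK) ∈ F₀) →
            (⟨n, x, f ⁻¹' (HS R Y)ᶜ⟩ : Rule KK) ∈ F

/-- The cardinal bound at stage `w`. -/
noncomputable def kap (w : W) : Cardinal.{0} := max (#(Iio w)) ℵ₀

end Pool.Agent.Lib_MP_6d359a_lc
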