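import Pool.Agent.Lib_MP_6d359a_lc.Comfort

namespace Pool.Agent.Lib_MP_6d359a_lc

open Set Cardinal

theorem exists_en (n : ℕ) : Nonempty (Om (n + 1) ≃ ℕ) := by
  have : Infinite (Om (n + 1)) := by
    refine Infinite.of_injective (fun k : ℕ => (⟨k, fun _ _ => ∅⟩ : Om (n + 1))) ?_
    intro a b hab
    exact congrArg Sigma.fst hab
  exact nonempty_equiv_of_countable

theorem exists_enumeration {K : Type} (S : Set K) (hS : S.Finite) (hne : S.Nonempty) :
    ∃ (n : ℕ) (x : Fin (n + 1) → K), Function.Injective x ∧ Set.range x = S := by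
  obtain ⟨m, x, hx⟩ := hS.fin_param
  have hm : m ≠ 0 := by
    rintro rfl
    obtain ⟨y, hy⟩ := hne
    rw [← hx.2] at hy
    obtain ⟨a, -⟩ := hy
    exact a.elim0
  obtain ⟨n, rfl⟩ := Nat.exists_eq_succ_of_ne_zero hm
  exact ⟨n, x, hx.1, hx.2⟩

theorem main : ∃ e : {X : Set (Ultrafilter ℕ) // X.Finite} → Ultrafilter ℕ,
    (∀ X, WeakPPoint (e X)) ∧
    (∀ X Y, X.1 ⊆ Y.1 ↔ RKle (e X) (e Y)) ∧
    ∀ R : Ultrafilter ℕ → Ultrafilter ℕ → Prop, (∀ u v, RKle u v → R u v) →
      (∀ u v, R u v → Cle u v) → ∀ X Y, X.1 ⊆ Y.1 ↔ R (e X) (e Y) := by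
  obtain ⟨w, hcoh, hlev, hok, hrk⟩ := exists_system
  obtain ⟨i, hi, s, hs⟩ := exists_embedding
  have hen := fun X : {X : Set (Ultrafilter ℕ) // X.Finite} =>
    exists_enumeration (insert s (i '' X.1)) ((X.2.image i).insert s) (Set.insert_nonempty _ _)
  choose N x hx hr using hen
  let en : ∀ n, Om (n + 1) ≃ ℕ := fun n => (exists_en n).some
  let e : {X : Set (Ultrafilter ℕ) // X.Finite} → Ultrafilter ℕ := fun X =>
    (w (N X + 1) (x X)).map (en (N X))
  have hW : ∀ X, WeakPPoint (e X) := fun X =>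
    weakP_of_okp _ (hlev _ _ (hx X)) (hok _ _ (hx X)) _
  have h1 : ∀ X Y, X.1 ⊆ Y.1 → RKle (e X) (e Y) := by
    intro X Y hXY
    have hsub : ∀ a, ∃ b, x X a = x Y b := by
      intro a
      have : x X a ∈ Set.range (x Y) := by
        rw [hr Y]
        have h2 : x X a ∈ Set.range (x X) := ⟨a, rfl⟩
        rw [hr X] at h2
        exact Set.insert_subset_insert (Set.image_mono hXY) h2
      obtain ⟨b, hb⟩ := this
      exact ⟨b, hb.symm⟩
    choose ι hι using hsub
    refine ⟨fun m => en (N X) (proj ι ((en (N Y)).symm m)), ?_⟩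
    have h3 := hcoh _ _ (x X) (x Y) ι (hx X) (hx Y) hι
    change (w (N X + 1) (x X)).map (en (N X)) = _
    rw [← h3]
    change ((w (N Y + 1) (x Y)).map (proj ι)).map (en (N X)) =
      ((w (N Y + 1) (x Y)).map (en (N Y))).map _
    rw [Ultrafilter.map_map, Ultrafilter.map_map]
    congr 1
    funext q
    simp [Function.comp]
  have h2 : ∀ X Y, RKle (e X) (e Y) → X.1 ⊆ Y.1 := by
    rintro X Y ⟨f, hf⟩ u hu
    by_contra hY
    have hy : i u ∉ Set.range (x Y) := by
      rw [hr Y]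
      rintro (h | ⟨v, hv, hvu⟩)
      · exact hs ⟨u, h⟩
      · exact hY (hi hvu ▸ hv)
    have hxu : i u ∈ Set.range (x X) := by
      rw [hr X]
      exact Set.mem_insert_of_mem _ ⟨u, hu, rfl⟩
    obtain ⟨a, ha⟩ := hxu
    have h3 := hcoh 1 _ (fun _ => i u) (x X) (fun _ => a)
      (fun _ _ _ => Subsingleton.elim _ _) (hx X) (fun _ => ha.symm)
    refine hrk _ (x Y) (i u)
      (fun q => proj (fun _ : Fin 1 => a) ((en (N X)).symm (f (en (N Y) q)))) (hx Y) hy ?_
    rw [← h3]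
    have h4 : w (N X + 1) (x X) = (e X).map (en (N X)).symm := by
      change _ = ((w (N X + 1) (x X)).map (en (N X))).map (en (N X)).symm
      rw [Ultrafilter.map_map]
      have : (en (N X)).symm ∘ (en (N X)) = id := by
        funext q; simp
      rw [this, Ultrafilter.map_id]
    rw [h4, hf]
    change _ = ((((w (N Y + 1) (x Y)).map (en (N Y))).map f).map (en (N X)).symm).map _
    rw [Ultrafilter.map_map, Ultrafilter.map_map, Ultrafilter.map_map]
    rfl
  refine ⟨e, hW, fun X Y => ⟨h1 X Y, h2 X Y⟩, ?_⟩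
  intro R hR1 hR2 X Y
  exact ⟨fun h => hR1 _ _ (h1 X Y h), fun h => h2 X Y (rkle_of_cle (hW X) (hR2 _ _ h))⟩

end Pool.Agent.Lib_MP_6d359a_lc
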