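import Pool.Agent.Lib_MP_6d359a_lc.Chain

namespace Pool.Agent.Lib_MP_6d359a_lc

open Set Cardinal

/-- The combinatorial form of being OK. -/
def OKP {n : ℕ} (u : Ultrafilter (Om (n + 1))) : Prop :=
  ∀ U : ℕ → Set (Om (n + 1)), Antitone U → U 0 = Set.univ → (∀ q, ∃ j, q ∉ U j) →
    (∀ j, U j ∈ u) → ∃ V : Set ℕ → Set (Om (n + 1)), (∀ α, V α ∈ u) ∧
      ∀ A : Finset (Set ℕ), ∃ k₀, ∀ q : Om (n + 1), (∀ α ∈ A, q ∈ V α) → k₀ ≤ q.1 →
        q ∈ U A.card

theorem sys_nonempty_W : Nonempty W := by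
  rw [← Cardinal.mk_ne_zero_iff, mk_W]
  exact Cardinal.continuum_ne_zero

/-- finitely many indices are bounded strictly -/
theorem sys_bdd {ι : Type} [Finite ι] (f : ι → W) : ∃ w, ∀ i, f i < w := by
  have := sys_nonempty_W
  obtain ⟨M, hM⟩ := Finite.exists_le f
  obtain ⟨w, hw⟩ := W_bounded (fun _ => M)
  exact ⟨w, fun i => (hM i).trans_lt (hw 0)⟩

theorem sys_fin {F : W → Set (Rule KK)} (hmono : ∀ v w, v ≤ w → F v ⊆ F w)
    {g : Set (Rule KK)} (hg : g.Finite) (hgF : g ⊆ ⋃ w, F w) : ∃ w, g ⊆ F w := by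
  have := hg.to_subtype
  have h1 : ∀ r : g, ∃ w, (r : Rule KK) ∈ F w := fun r => by
    simpa using mem_iUnion.mp (hgF r.2)
  choose v hv using h1
  obtain ⟨w, hw⟩ := sys_bdd v
  exact ⟨w, fun r hr => hmono _ _ (hw ⟨r, hr⟩).le (hv ⟨r, hr⟩)⟩

theorem sys_pt {F : W → Set (Rule KK)} {J : W → Set (Set ℕ)}
    (hmono : ∀ v w, v ≤ w → F v ⊆ F w) (hind : ∀ w, IND (F w) (J w))
    {g : Set (Rule KK)} (hg : g.Finite) (hgF : g ⊆ ⋃ w, F w) (k₀ : ℕ) :
    ∃ k ≥ k₀, ∃ p : KK → Blk k, ∀ r ∈ g, RSat r k p := by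
  obtain ⟨w, hw⟩ := sys_fin hmono hg hgF
  have hrows : rows (∅ : Cond KK) = ∅ := by
    ext R
    simp [rows]
  obtain ⟨k, hk, p, hp, -⟩ := hind w g hg hw ∅ (by rw [hrows]; exact Set.empty_disjoint _) k₀
  exact ⟨k, hk, p, hp⟩

theorem sys_sep {n : ℕ} (x : Fin n → KK) (hx : Function.Injective x) :
    ∃ w₀ : W, ∀ w, w₀ ≤ w → ∀ a b, a ≠ b → ¬ EE w (x a) (x b) := by
  have := sys_nonempty_W
  have h1 : ∀ ab : Fin n × Fin n, ∃ v : W, ab.1 ≠ ab.2 → x ab.1 v ≠ x ab.2 v := by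
    intro ab
    by_cases h : ab.1 = ab.2
    · exact ⟨Classical.arbitrary W, fun h' => absurd h h'⟩
    · have h2 : x ab.1 ≠ x ab.2 := fun h' => h (hx h')
      obtain ⟨v, hv⟩ := Function.ne_iff.mp h2
      exact ⟨v, fun _ => hv⟩
  choose v hv using h1
  obtain ⟨w₀, hw₀⟩ := sys_bdd v
  refine ⟨w₀, fun w hw a b hab hE => ?_⟩
  exact hv (a, b) hab (hE (v (a, b)) ((hw₀ (a, b)).trans_le hw))

/-- the ultrafilter of an injective tuple -/
theorem sys_ultra {F : W → Set (Rule KK)} {J : W → Set (Set ℕ)}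
    (hmono : ∀ v w, v ≤ w → F v ⊆ F w) (hind : ∀ w, IND (F w) (J w))
    {n : ℕ} (x : Fin n → KK)
    (hdec : ∀ Z : Set (Om n), (⟨n, x, Z⟩ : Rule KK) ∈ (⋃ w, F w) ∨
      (⟨n, x, Zᶜ⟩ : Rule KK) ∈ (⋃ w, F w)) :
    ∃ u : Ultrafilter (Om n), ∀ Z, Z ∈ u ↔ (⟨n, x, Z⟩ : Rule KK) ∈ (⋃ w, F w) := by
  have hpt : ∀ l : List (Set (Om n)), (∀ Z ∈ l, (⟨n, x, Z⟩ : Rule KK) ∈ (⋃ w, F w)) →
      ∃ q : Om n, ∀ Z ∈ l, q ∈ Z := by
    intro l hl
    have hfin : {r : Rule KK | ∃ Z ∈ l, r = ⟨n, x, Z⟩}.Finite := by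
      have : {r : Rule KK | ∃ Z ∈ l, r = ⟨n, x, Z⟩} =
          (fun Z : Set (Om n) => (⟨n, x, Z⟩ : Rule KK)) '' {Z | Z ∈ l} := by
        ext r
        constructor
        · rintro ⟨Z, hZ, rfl⟩
          exact ⟨Z, hZ, rfl⟩
        · rintro ⟨Z, hZ, rfl⟩
          exact ⟨Z, hZ, rfl⟩
      rw [this]
      exact (List.finite_toSet l).image _
    obtain ⟨k, -, p, hp⟩ := sys_pt hmono hind hfin (by
      rintro r ⟨Z, hZ, rfl⟩
      exact hl Z hZ) 0
    exact ⟨⟨k, fun a => p (x a)⟩, fun Z hZ => hp ⟨n, x, Z⟩ ⟨Z, hZ, rfl⟩⟩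
  have hnot : ∀ Z, (⟨n, x, Z⟩ : Rule KK) ∈ (⋃ w, F w) →
      (⟨n, x, Zᶜ⟩ : Rule KK) ∉ (⋃ w, F w) := by
    intro Z h1 h2
    obtain ⟨q, hq⟩ := hpt [Z, Zᶜ] (by
      intro Z' hZ'
      simp only [List.mem_cons, List.not_mem_nil, or_false] at hZ'
      rcases hZ' with rfl | rfl
      · exact h1
      · exact h2)
    exact hq Zᶜ (by simp) (hq Z (by simp))
  let f : Filter (Om n) :=
    { sets := {Z | (⟨n, x, Z⟩ : Rule KK) ∈ (⋃ w, F w)}
      univ_sets := by
        rcases hdec Set.univ with h | h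
        · exact h
        · exfalso
          obtain ⟨q, hq⟩ := hpt [Set.univᶜ] (by
            intro Z' hZ'
            simp only [List.mem_cons, List.not_mem_nil, or_false] at hZ'
            rw [hZ']; exact h)
          exact hq Set.univᶜ (by simp) (Set.mem_univ q)
      sets_of_superset := by
        intro Z Z' hZ hZZ'
        rcases hdec Z' with h | h
        · exact h
        · exfalso
          obtain ⟨q, hq⟩ := hpt [Z, Z'ᶜ] (by
            intro Z'' hZ''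
            simp only [List.mem_cons, List.not_mem_nil, or_false] at hZ''
            rcases hZ'' with rfl | rfl
            · exact hZ
            · exact h)
          exact hq Z'ᶜ (by simp) (hZZ' (hq Z (by simp)))
      inter_sets := by
        intro Z Z' hZ hZ'
        rcases hdec (Z ∩ Z') with h | h
        · exact h
        · exfalso
          obtain ⟨q, hq⟩ := hpt [Z, Z', (Z ∩ Z')ᶜ] (by
            intro Z'' hZ''
            simp only [List.mem_cons, List.not_mem_nil, or_false] at hZ''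
            rcases hZ'' with rfl | rfl | rfl
            · exact hZ
            · exact hZ'
            · exact h)
          exact hq (Z ∩ Z')ᶜ (by simp) ⟨hq Z (by simp), hq Z' (by simp)⟩ }
  have hf : ∀ Z, Z ∈ f ↔ (⟨n, x, Z⟩ : Rule KK) ∈ (⋃ w, F w) := fun Z => Iff.rfl
  refine ⟨Ultrafilter.ofComplNotMemIff f fun Z => ?_, fun Z => hf Z⟩
  rw [hf, hf]
  constructor
  · intro h
    exact (hdec Z).resolve_right h
  · intro h
    exact hnot Z h

theorem exists_system : ∃ w : ∀ n : ℕ, (Fin n → KK) → Ultrafilter (Om n),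
    (∀ (n m : ℕ) (x : Fin n → KK) (y : Fin m → KK) (ι : Fin n → Fin m),
      Function.Injective x → Function.Injective y → (∀ a, x a = y (ι a)) →
        (w m y).map (proj ι) = w n x) ∧
    (∀ (n : ℕ) (x : Fin n → KK), Function.Injective x → ∀ k, Lev n k ∈ w n x) ∧
    (∀ (n : ℕ) (x : Fin (n + 1) → KK), Function.Injective x → OKP (w (n + 1) x)) ∧
    (∀ (n : ℕ) (x : Fin n → KK) (y : KK) (f : Om n → Om 1), Function.Injective x →
      y ∉ Set.range x → (w n x).map f ≠ w 1 (fun _ => y)) := by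
  obtain ⟨req, hreq⟩ := exists_enum
  obtain ⟨F, J, hmono, hind, hgoal⟩ := exists_chain req
  have := sys_nonempty_W
  -- decisions
  have hdec : ∀ (n : ℕ) (x : Fin n → KK), Function.Injective x → ∀ Z : Set (Om n),
      (⟨n, x, Z⟩ : Rule KK) ∈ (⋃ w, F w) ∨ (⟨n, x, Zᶜ⟩ : Rule KK) ∈ (⋃ w, F w) := by
    intro n x hx Z
    obtain ⟨w₀, hw₀⟩ := sys_sep x hx
    obtain ⟨w', hw', hr⟩ := hreq (Req.dec n Z) w₀
    have hG := hgoal w'
    rw [hr] at hG
    rcases hG x (hw₀ w' hw'.le) with h | h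
    · exact Or.inl (mem_iUnion.mpr ⟨w', h⟩)
    · exact Or.inr (mem_iUnion.mpr ⟨w', h⟩)
  have hpure : ∀ n, Nonempty (Ultrafilter (Om n)) := fun n =>
    ⟨(pure (⟨0, fun _ _ => ∅⟩ : Om n) : Ultrafilter (Om n))⟩
  have hU : ∀ (n : ℕ) (x : Fin n → KK), ∃ u : Ultrafilter (Om n), Function.Injective x →
      ∀ Z, Z ∈ u ↔ (⟨n, x, Z⟩ : Rule KK) ∈ (⋃ w, F w) := by
    intro n x
    by_cases hx : Function.Injective x
    · obtain ⟨u, hu⟩ := sys_ultra hmono hind x (hdec n x hx)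
      exact ⟨u, fun _ => hu⟩
    · exact ⟨(hpure n).some, fun h => absurd h hx⟩
  choose w hw using hU
  have hLev : ∀ (n : ℕ) (x : Fin n → KK), Function.Injective x → ∀ k, Lev n k ∈ w n x := by
    intro n x hx k
    by_contra hcon
    have h1 : (Lev n k)ᶜ ∈ w n x := Ultrafilter.compl_mem_iff_notMem.mpr hcon
    have h2 := (hw n x hx _).mp h1
    obtain ⟨k', hk', p, hp⟩ := sys_pt hmono hind (g := {(⟨n, x, (Lev n k)ᶜ⟩ : Rule KK)})
      (Set.finite_singleton _) (by simpa using h2) k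
    have h3 := hp _ (Set.mem_singleton _)
    exact h3 hk'
  have hinj1 : ∀ y : KK, Function.Injective (fun _ : Fin 1 => y) := fun y =>
    Function.injective_of_subsingleton _
  refine ⟨w, ?_, hLev, ?_, ?_⟩
  · intro n m x y ι hx hy hxy
    symm
    rw [← Ultrafilter.coe_le_coe]
    intro Z hZ
    rw [Ultrafilter.mem_coe, Ultrafilter.mem_map] at hZ
    rw [Ultrafilter.mem_coe]
    by_contra hcon
    have h1 : Zᶜ ∈ w n x := Ultrafilter.compl_mem_iff_notMem.mpr hcon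
    have h2 := (hw n x hx _).mp h1
    have h3 := (hw m y hy _).mp hZ
    obtain ⟨k', -, p, hp⟩ := sys_pt hmono hind
      (g := {(⟨n, x, Zᶜ⟩ : Rule KK), (⟨m, y, proj ι ⁻¹' Z⟩ : Rule KK)})
      (Set.toFinite _) (by
        intro r hr
        rcases hr with rfl | hr
        · exact h2
        · rw [Set.mem_singleton_iff.mp hr]
          exact h3) 0
    have h4 := hp _ (Set.mem_insert _ _)
    have h5 := hp (⟨m, y, proj ι ⁻¹' Z⟩ : Rule KK) (Set.mem_insert_of_mem _ rfl)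
    apply h4
    have h6 : (⟨k', fun a => p (x a)⟩ : Om n) = proj ι ⟨k', fun b => p (y b)⟩ := by
      unfold proj
      congr 1
      funext a
      rw [hxy a]
    change (⟨k', fun a => p (x a)⟩ : Om n) ∈ Z
    rw [h6]
    exact h5
  · intro n x hx U hanti hU0 hUex hUmem
    have h1 : ∀ j, ∃ v : W, (⟨n + 1, x, U j⟩ : Rule KK) ∈ F v := fun j =>
      mem_iUnion.mp ((hw (n + 1) x hx _).mp (hUmem j))
    choose v hv using h1
    obtain ⟨w₁, hw₁⟩ := W_bounded v
    obtain ⟨w', hw', hr⟩ := hreq (Req.ok n U) w₁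
    have hG := hgoal w'
    rw [hr] at hG
    obtain ⟨R, hR⟩ := hG hanti hU0 hUex
    have hV := hR x fun j => mem_iUnion.mpr ⟨⟨v j, (hw₁ j).trans hw'⟩, hv j⟩
    refine ⟨VV U R, fun α => (hw (n + 1) x hx _).mpr (mem_iUnion.mpr ⟨w', hV α⟩), ?_⟩
    intro A
    obtain ⟨k₀, hk₀⟩ := res_injOn (A : Set (Set ℕ)) A.finite_toSet
    refine ⟨k₀, fun q hq hk => ?_⟩
    rcases A.eq_empty_or_nonempty with rfl | ⟨α₀, hα₀⟩
    · rw [Finset.card_empty, hU0]
      exact Set.mem_univ q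
    · obtain ⟨j, hj1, hj2, hj3⟩ := hq α₀ hα₀
      have hall : ∀ α ∈ A, Hit R j α q.1 (q.2 0) := by
        intro α hα
        obtain ⟨j', hj1', hj2', hj3'⟩ := hq α hα
        have : j = j' := by
          rcases lt_trichotomy j j' with h | h | h
          · exact absurd (hanti (Nat.succ_le_of_lt h) hj1') hj2
          · exact h
          · exact absurd (hanti (Nat.succ_le_of_lt h) hj1) hj2'
        rw [this]
        exact hj3'
      have hcard : A.card ≤ j := by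
        have e1 : (A.image (res q.1)).card = A.card :=
          Finset.card_image_of_injOn (hk₀ q.1 hk)
        rw [← e1]
        refine le_trans (Finset.card_le_card ?_) hj3.1
        intro z hz
        obtain ⟨α, hα, rfl⟩ := Finset.mem_image.mp hz
        exact (hall α hα).2
      exact hanti hcard hj1
  · intro n x y f hx hy heq
    have h1 : ∀ k, f ⁻¹' Lev 1 k ∈ w n x := by
      intro k
      have := hLev 1 (fun _ => y) (hinj1 y) k
      rw [← heq, Ultrafilter.mem_map] at this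
      exact this
    have h2 : ∀ k, ∃ v : W, (⟨n, x, f ⁻¹' Lev 1 k⟩ : Rule KK) ∈ F v := fun k =>
      mem_iUnion.mp ((hw n x hx _).mp (h1 k))
    choose v hv using h2
    obtain ⟨w₁, hw₁⟩ := W_bounded v
    have h3 : ∀ a, ∃ c : W, y c ≠ x a c := fun a =>
      Function.ne_iff.mp fun h => hy ⟨a, h.symm⟩
    choose c hc using h3
    obtain ⟨w₂, hw₂⟩ := sys_bdd c
    classical
    let v₀ : Finset W := (Finset.univ.image c).filter (fun u => y u = false)
    let v₁ : Finset W := (Finset.univ.image c).filter (fun u => y u = true)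
    obtain ⟨w', hw', hr⟩ := hreq (Req.rk n f v₀ v₁) (max w₁ w₂)
    have hG := hgoal w'
    rw [hr] at hG
    have hb : ∀ u ∈ Finset.univ.image c, u < w' := by
      intro u hu
      obtain ⟨a, -, rfl⟩ := Finset.mem_image.mp hu
      exact (hw₂ a).trans ((le_max_right _ _).trans_lt hw')
    obtain ⟨R, Y, hR1, hR2⟩ := hG (fun u hu => hb u (Finset.mem_filter.mp hu).1)
      (fun u hu => hb u (Finset.mem_filter.mp hu).1)
    have hyC : y ∈ Cyl v₀ v₁ :=
      ⟨fun u hu => (Finset.mem_filter.mp hu).2, fun u hu => (Finset.mem_filter.mp hu).2⟩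
    have hxC : ∀ a, x a ∉ Cyl v₀ v₁ := by
      intro a ha
      apply hc a
      have hm : c a ∈ Finset.univ.image c := Finset.mem_image_of_mem c (Finset.mem_univ a)
      rcases Bool.eq_false_or_eq_true (y (c a)) with h | h
      · rw [h, ha.2 (c a) (Finset.mem_filter.mpr ⟨hm, h⟩)]
      · rw [h, ha.1 (c a) (Finset.mem_filter.mpr ⟨hm, h⟩)]
    have g1 : HS R Y ∈ w 1 (fun _ => y) :=
      (hw 1 _ (hinj1 y) _).mpr (mem_iUnion.mpr ⟨w', hR1 y hyC⟩)
    rw [← heq, Ultrafilter.mem_map] at g1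
    have g2 : f ⁻¹' (HS R Y)ᶜ ∈ w n x :=
      (hw n x hx _).mpr (mem_iUnion.mpr ⟨w', hR2 x hxC fun k =>
        mem_iUnion.mpr ⟨⟨v k, (hw₁ k).trans ((le_max_left _ _).trans_lt hw')⟩, hv k⟩⟩)
    exact Ultrafilter.compl_mem_iff_notMem.mp g2 g1

end Pool.Agent.Lib_MP_6d359a_lc
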