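import Pool.Agent.Lib_MP_6d359a_lc.System

namespace Pool.Agent.Lib_MP_6d359a_lc

open Set Cardinal

/-- nonprincipal ultrafilters on the naturals -/
def NonPrincipal (u : Ultrafilter ℕ) : Prop := ∀ n : ℕ, u ≠ pure n

/-- weak P-points -/
def WeakPPoint (u : Ultrafilter ℕ) : Prop :=
  NonPrincipal u ∧ ∀ D : Set (Ultrafilter ℕ), D.Countable →
    (∀ d ∈ D, NonPrincipal d ∧ d ≠ u) → u ∉ closure D

/-- A nonprincipal ultrafilter contains no finite set. -/
theorem NonPrincipal.compl_mem {d : Ultrafilter ℕ} (hd : NonPrincipal d) {s : Set ℕ}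
    (hs : s.Finite) : sᶜ ∈ d := by
  rw [Ultrafilter.compl_mem_iff_notMem]
  intro h
  obtain ⟨x, _, hx⟩ := Ultrafilter.eq_pure_of_finite_mem hs h
  exact hd x hx

theorem finite_low (n k : ℕ) : {q : Om n | q.1 < k}.Finite := by
  have h : {q : Om n | q.1 < k} = ⋃ j ∈ Set.Iio k, Set.range (fun p : Fin n → Blk j =>
      (⟨j, p⟩ : Om n)) := by
    ext q
    simp only [Set.mem_ofPred_eq, Set.mem_iUnion, Set.mem_Iio, Set.mem_range, exists_prop]
    constructor
    · intro hq
      exact ⟨q.1, hq, q.2, rfl⟩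
    · rintro ⟨j, hj, p, rfl⟩
      exact hj
  rw [h]
  exact (Set.finite_Iio k).biUnion (fun j _ => Set.finite_range _)

theorem weakP_of_okp {n : ℕ} (u : Ultrafilter (Om (n + 1))) (hl : ∀ k, Lev (n + 1) k ∈ u)
    (hu : OKP u) (e : Om (n + 1) ≃ ℕ) : WeakPPoint (u.map e) := by
  classical
  refine ⟨?_, ?_⟩
  · intro m hm
    have h1 : ({m} : Set ℕ) ∈ u.map e := by
      rw [hm]
      exact Ultrafilter.mem_pure.mpr rfl
    have h2 : e ⁻¹' {m} ∈ u := h1
    have h3 := u.inter_mem h2 (hl ((e.symm m).1 + 1))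
    obtain ⟨q, hq⟩ := u.nonempty_of_mem h3
    have hq1 : e q = m := hq.1
    have hq2 : (e.symm m).1 + 1 ≤ q.1 := hq.2
    rw [← hq1] at hq2
    simp at hq2
  · intro D hD hDu
    rcases D.eq_empty_or_nonempty with rfl | hne
    · simp
    obtain ⟨d, hd⟩ := hD.exists_eq_range hne
    have hdn : ∀ j, NonPrincipal (d j) ∧ d j ≠ u.map e := by
      intro j
      exact hDu (d j) (by rw [hd]; exact ⟨j, rfl⟩)
    -- separating sets
    have hsep : ∀ j, ∃ S : Set ℕ, S ∈ u.map e ∧ S ∉ d j := by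
      intro j
      by_contra hcon
      push Not at hcon
      apply (hdn j).2
      apply Ultrafilter.coe_le_coe.mp
      intro S hS
      exact hcon S hS
    choose S hS1 hS2 using hsep
    set U : ℕ → Set (Om (n + 1)) := fun j => {q | (∀ i < j, e q ∈ S i) ∧ j ≤ q.1} with hU
    have hUanti : Antitone U := by
      intro a b hab q hq
      exact ⟨fun i hi => hq.1 i (lt_of_lt_of_le hi hab), le_trans hab hq.2⟩
    have hU0 : U 0 = Set.univ := by
      ext q
      simp [hU]
    have hUe : ∀ q, ∃ j, q ∉ U j := by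
      intro q
      refine ⟨q.1 + 1, fun hq => ?_⟩
      have := hq.2
      omega
    have hUm : ∀ j, U j ∈ u := by
      intro j
      have h1 : (⋂ i ∈ Set.Iio j, e ⁻¹' (S i)) ∈ u := by
        rw [← Ultrafilter.mem_coe, Filter.biInter_mem (Set.finite_Iio j)]
        intro i _
        exact hS1 i
      refine u.sets_of_superset (u.inter_mem h1 (hl j)) ?_
      rintro q ⟨hq1, hq2⟩
      refine ⟨fun i hi => ?_, hq2⟩
      simp only [Set.mem_iInter] at hq1
      exact hq1 i hi
    obtain ⟨V, hV, hVA⟩ := hu U hUanti hU0 hUe hUm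
    -- the exceptional columns are countable
    have hA : ∀ j, {α : Set ℕ | e.symm ⁻¹' (V α) ∈ d j}.Finite := by
      intro j
      by_contra hinf
      have hinf' : {α : Set ℕ | e.symm ⁻¹' (V α) ∈ d j}.Infinite := hinf
      obtain ⟨A, hA1, hA2⟩ := hinf'.exists_subset_card_eq (j + 1)
      obtain ⟨k₀, hk₀⟩ := hVA A
      have h1 : (⋂ α ∈ (A : Set (Set ℕ)), e.symm ⁻¹' (V α)) ∈ d j := by
        rw [← Ultrafilter.mem_coe, Filter.biInter_mem A.finite_toSet]
        intro α hα
        exact hA1 hα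
      have h2 : (e '' {q : Om (n + 1) | q.1 < k₀})ᶜ ∈ d j :=
        (hdn j).1.compl_mem ((finite_low (n + 1) k₀).image e)
      apply hS2 j
      refine (d j).sets_of_superset ((d j).inter_mem h1 h2) ?_
      rintro m ⟨hm1, hm2⟩
      simp only [Set.mem_iInter] at hm1
      have hlev : k₀ ≤ (e.symm m).1 := by
        by_contra hlt
        apply hm2
        exact ⟨e.symm m, by simpa using hlt, by simp⟩
      have hmem := hk₀ (e.symm m) (fun α hα => hm1 α hα) hlev
      rw [hA2] at hmem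
      have := hmem.1 j (Nat.lt_succ_self j)
      simpa using this
    have hcount : (⋃ j, {α : Set ℕ | e.symm ⁻¹' (V α) ∈ d j}).Countable :=
      Set.countable_iUnion (fun j => (hA j).countable)
    have hex : ∃ α : Set ℕ, α ∉ ⋃ j, {α : Set ℕ | e.symm ⁻¹' (V α) ∈ d j} := by
      by_contra hcon
      push Not at hcon
      have huniv : (Set.univ : Set (Set ℕ)).Countable :=
        hcount.mono (fun α _ => hcon α)
      have hc : Countable (Set ℕ) := Set.countable_univ_iff.mp huniv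
      have h1 : #(Set ℕ) ≤ ℵ₀ := Cardinal.mk_le_aleph0_iff.mpr hc
      rw [Cardinal.mk_set, Cardinal.mk_nat] at h1
      exact absurd h1 (not_le.mpr (Cardinal.cantor ℵ₀))
    obtain ⟨α, hα⟩ := hex
    have hα' : ∀ j, e.symm ⁻¹' (V α) ∉ d j := by
      intro j hj
      exact hα (Set.mem_iUnion.mpr ⟨j, hj⟩)
    intro hcl
    have hopen : IsOpen {d : Ultrafilter ℕ | e.symm ⁻¹' (V α) ∈ d} :=
      ultrafilter_isOpen_basic _
    have hmem : u.map e ∈ {d : Ultrafilter ℕ | e.symm ⁻¹' (V α) ∈ d} := by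
      show e ⁻¹' (e.symm ⁻¹' (V α)) ∈ u
      have : e ⁻¹' (e.symm ⁻¹' (V α)) = V α := by
        ext q
        simp
      rw [this]
      exact hV α
    obtain ⟨d', hd'1, hd'2⟩ := mem_closure_iff.mp hcl _ hopen hmem
    rw [hd] at hd'2
    obtain ⟨j, rfl⟩ := hd'2
    exact hα' j hd'1

end Pool.Agent.Lib_MP_6d359a_lc
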